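import Pool.Agent.Lib.MP_146573_gt.C.Model

open Quaternion

namespace Pool.Agent.Lib.MP_146573_gt.C

noncomputable section

open Pool.Agent.Lib.MP_d476f3_gt (Δ vert coray)

variable (E : Type) [TopologicalSpace E] [MulAction grp E]

/-- The class of a point in the Borel construction of the level set. -/
def mkZ (p : E × model.zeroLevel) : Borel grp E model.zeroLevel := Quotient.mk _ p

/-- The class of a point in the Borel construction of the whole space. -/
def mkV (p : E × V6) : Borel grp E V6 := Quotient.mk _ p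

theorem continuous_mkZ : Continuous (mkZ E) := continuous_quotient_mk'

theorem continuous_mkV : Continuous (mkV E) := continuous_quotient_mk'

theorem quot_mkZ : Topology.IsQuotientMap (mkZ E) := isQuotientMap_quotient_mk'

theorem continuous_val2 : Continuous fun p : E × model.zeroLevel => (p.2 : V6) :=
  continuous_subtype_val.comp continuous_snd

/-- The flavour moment map on the Borel construction. -/
def PhiB : C(Borel grp E model.zeroLevel, ℂ × ℝ) :=
  ⟨Quotient.lift (fun p : E × model.zeroLevel => Phi (p.2 : V6)) (by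
    rintro p q ⟨⟨u, g, z, hg, hz, h⟩, rfl⟩
    have h1 : Phi ((u : V6 →L[ℝ] V6) (q.2 : V6)) = Phi (q.2 : V6) := by
      rw [h]
      exact Phi_rho hg z _
    exact h1), Continuous.quotient_lift (continuous_Phi.comp (continuous_val2 E)) _⟩

theorem PhiB_mk (p : E × model.zeroLevel) : PhiB E (mkZ E p) = Phi (p.2 : V6) := rfl

/-- The reflection on the level set. -/
def refl5 (x : model.zeroLevel) : model.zeroLevel :=
  ⟨sc5 (-1) x, mem_zeroLevel_iff.mpr (mem_zeroLevel_iff.mp x.2).sc5⟩

theorem refl5_val (x : model.zeroLevel) : (refl5 x : V6) = sc5 (-1) x := rfl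

theorem upD_val (w : Circle) (t : unitInterval) :
    (upD w t : V6) = jj (ca t) (cb t * (starRingEnd ℂ) w) := rfl

theorem loD_val (w : Circle) (t : unitInterval) : (loD w t : V6) = jj (cb t * w) (ca t) := rfl

theorem continuous_refl5 : Continuous refl5 :=
  (continuous_sc5.comp (continuous_const.prodMk continuous_subtype_val)).subtype_mk _

theorem refl5_smul (u : grp) (x : model.zeroLevel) : u • refl5 x = refl5 (u • x) :=
  Subtype.ext (sc5_smul _ u _)

/-- The reflection on the Borel construction. -/
def sB : C(Borel grp E model.zeroLevel, Borel grp E model.zeroLevel) :=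
  ⟨Quotient.map' (fun p : E × model.zeroLevel => (p.1, refl5 p.2)) (by
      rintro p q ⟨u, rfl⟩
      exact ⟨u, Prod.ext rfl (refl5_smul u _)⟩),
    Continuous.quotient_map' (continuous_fst.prodMk (continuous_refl5.comp continuous_snd)) _⟩

theorem sB_mk (p : E × model.zeroLevel) : sB E (mkZ E p) = mkZ E (p.1, refl5 p.2) := rfl

/-- Scaling on the Borel construction. -/
def kB (c : ℝ) : Borel grp E model.zeroLevel → Borel grp E V6 :=
  Quotient.map' (fun p : E × model.zeroLevel => (p.1, sc5 c p.2)) (by
    rintro p q ⟨u, rfl⟩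
    exact ⟨u, Prod.ext rfl (sc5_smul _ u _)⟩)

omit [TopologicalSpace E] in
theorem kB_mk (c : ℝ) (p : E × model.zeroLevel) : kB E c (mkZ E p) = mkV E (p.1, sc5 c p.2) := rfl

theorem continuous_par : Continuous fun t : Δ 1 => (1 - 2 * (tt t : ℝ)) :=
  continuous_const.sub (continuous_const.mul (continuous_subtype_val.comp continuous_tt))

theorem continuous_kB :
    Continuous fun p : Borel grp E model.zeroLevel × Δ 1 => kB E (1 - 2 * (tt p.2 : ℝ)) p.1 := by
  apply (quot_mkZ E).continuous_lift_prod_left
  simp only [kB_mk]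
  have h1 : Continuous fun p : (E × model.zeroLevel) × Δ 1 =>
      ((1 - 2 * (tt p.2 : ℝ)), (p.1.2 : V6)) :=
    (continuous_par.comp continuous_snd).prodMk ((continuous_val2 E).comp continuous_fst)
  have h2 := continuous_sc5.comp h1
  have h3 := (continuous_mkV E).comp ((continuous_fst.comp continuous_fst).prodMk h2)
  exact h3

theorem incl_mk (p : E × model.zeroLevel) :
    borelIncl E model.zeroLevel (mkZ E p) = mkV E (p.1, (p.2 : V6)) := rfl

theorem kB_neg (y : Borel grp E model.zeroLevel) :
    kB E (-1) y = borelIncl E model.zeroLevel (sB E y) := by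
  obtain ⟨p, rfl⟩ := (quot_mkZ E).surjective y
  rw [kB_mk, sB_mk, incl_mk, refl5_val]

theorem PhiB_sB (e : E) (x : model.zeroLevel) :
    PhiB E (sB E (mkZ E (e, x))) = Phi (sc5 (-1) x) := rfl

omit [TopologicalSpace E] in
theorem mkZ_smul (u : grp) (e : E) (x : model.zeroLevel) : mkZ E (u • e, u • x) = mkZ E (e, x) :=
  Quotient.sound ⟨u, rfl⟩

theorem continuous_pp : Continuous fun q : Circle × Δ 1 => (q.1, tt q.2) :=
  continuous_fst.prodMk (continuous_tt.comp continuous_snd)

theorem par_zero : 1 - 2 * (tt (vert 1 0) : ℝ) = 1 := by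
  rw [tt_zero]
  norm_num

theorem par_one : 1 - 2 * (tt (vert 1 1) : ℝ) = -1 := by
  rw [tt_one]
  norm_num

theorem kB_one (y : Borel grp E model.zeroLevel) :
    kB E 1 y = borelIncl E model.zeroLevel y := by
  obtain ⟨p, rfl⟩ := (quot_mkZ E).surjective y
  rw [kB_mk, incl_mk, sc5_one]

/-- The homotopy in the Borel construction of the whole space. -/
def KB : C(Borel grp E model.zeroLevel × Δ 1, Borel grp E V6) := ⟨_, continuous_kB E⟩

theorem KB_apply (y : Borel grp E model.zeroLevel) (t : Δ 1) :
    KB E (y, t) = kB E (1 - 2 * (tt t : ℝ)) y := rfl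

theorem PhiB_ne (y : Borel grp E model.zeroLevel) : PhiB E y ≠ 0 := by
  obtain ⟨p, rfl⟩ := (quot_mkZ E).surjective y
  rw [PhiB_mk]
  exact (mem_zeroLevel_iff.mp p.2.2).Phi_ne

theorem continuous_up (e : E) :
    Continuous fun q : Circle × Δ 1 => mkZ E (e, upD q.1 (tt q.2)) := by
  have h1 := continuous_upD.comp continuous_pp
  have h2 := (continuous_mkZ E).comp ((continuous_const (y := e)).prodMk h1)
  exact h2

theorem continuous_lo [ContinuousSMul grp E] (e : E) (H : C(unitInterval × E, E)) :
    Continuous fun q : Circle × Δ 1 => mkZ E (H (tt q.2, circ q.1 • e), loD q.1 (tt q.2)) := by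
  have h1 := continuous_loD.comp continuous_pp
  have h0 : Continuous fun q : Circle × Δ 1 => H (tt q.2, circ q.1 • e) :=
    H.continuous.comp ((continuous_tt.comp continuous_snd).prodMk
      ((continuous_circ.comp continuous_fst).smul continuous_const))
  have h2 := (continuous_mkZ E).comp (h0.prodMk h1)
  exact h2

/-- The upper disc in the Borel construction. -/
def upB (e : E) : C(Circle × Δ 1, Borel grp E model.zeroLevel) := ⟨_, continuous_up E e⟩

/-- The lower disc in the Borel construction. -/
def loB [ContinuousSMul grp E] (e : E) (H : C(unitInterval × E, E)) :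
    C(Circle × Δ 1, Borel grp E model.zeroLevel) := ⟨_, continuous_lo E e H⟩

theorem upB_apply (e : E) (w : Circle) (t : Δ 1) :
    upB E e (w, t) = mkZ E (e, upD w (tt t)) := rfl

theorem loB_apply [ContinuousSMul grp E] (e : E) (H : C(unitInterval × E, E)) (w : Circle)
    (t : Δ 1) : loB E e H (w, t) = mkZ E (H (tt t, circ w • e), loD w (tt t)) := rfl

theorem KB_zero (y : Borel grp E model.zeroLevel) :
    KB E (y, vert 1 0) = borelIncl E model.zeroLevel y := by
  rw [KB_apply, par_zero, kB_one]

theorem KB_one (y : Borel grp E model.zeroLevel) :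
    KB E (y, vert 1 1) = borelIncl E model.zeroLevel (sB E y) := by
  rw [KB_apply, par_one, kB_neg]

theorem up_lo [ContinuousSMul grp E] (e : E) (H : C(unitInterval × E, E)) (a0 : ∀ x, H (0, x) = x)
    (w : Circle) : upB E e (w, vert 1 0) = loB E e H (w, vert 1 0) := by
  rw [upB_apply, loB_apply, tt_zero, a0, ← circ_upD, mkZ_smul]

theorem up_one (e : E) (w : Circle) : upB E e (w, vert 1 1) = mkZ E (e, upD 1 1) := by
  rw [upB_apply, tt_one, upD_one]

theorem lo_one [ContinuousSMul grp E] (e : E) (H : C(unitInterval × E, E)) (a1 : ∀ x, H (1, x) = e)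
    (w : Circle) : loB E e H (w, vert 1 1) = mkZ E (e, loD 1 1) := by
  rw [loB_apply, tt_one, a1, loD_one]

theorem up_coray (e : E) (q : Circle × Δ 1) : PhiB E (upB E e q) ∈ coray ℂ 1 := by
  obtain ⟨w, t⟩ := q
  rw [upB_apply, PhiB_mk, Phi_upD]
  exact mem_coray _ _ (one_mul _)

theorem lo_coray [ContinuousSMul grp E] (e : E) (H : C(unitInterval × E, E)) (q : Circle × Δ 1) :
    PhiB E (loB E e H q) ∈ coray ℂ (-1) := by
  obtain ⟨w, t⟩ := q
  rw [loB_apply, PhiB_mk, Phi_loD]
  exact mem_coray _ _ (by ring)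

theorem up_fst (e : E) (w : Circle) : (PhiB E (upB E e (w, vert 1 0))).1 = w := by
  rw [upB_apply, PhiB_mk, Phi_upD, tt_zero, cb_zero, ca_zero, one_mul]

theorem up_sB (e : E) (q : Circle × Δ 1) : PhiB E (sB E (upB E e q)) = (0, 1) := by
  obtain ⟨w, t⟩ := q
  rw [upB_apply, PhiB_sB, upD_val]
  exact Phi_sc5_jj (up_sq w (tt t))

theorem lo_sB [ContinuousSMul grp E] (e : E) (H : C(unitInterval × E, E)) (q : Circle × Δ 1) :
    PhiB E (sB E (loB E e H q)) = (0, 1) := by
  obtain ⟨w, t⟩ := q
  rw [loB_apply, PhiB_sB, loD_val]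
  exact Phi_sc5_jj (lo_sq w (tt t))

theorem model_not_surjective [ContinuousSMul grp E] [ContractibleSpace E] :
    ¬ Function.Surjective (model.kirwan E 2) := by
  obtain ⟨e, ⟨Hc⟩⟩ := id_nullhomotopic E
  exact not_surjective_two (borelIncl E model.zeroLevel) (PhiB E) (PhiB_ne E) (sB E)
    (KB E) (KB_zero E) (KB_one E) (upB E e) (loB E e Hc.toContinuousMap)
    (up_lo E e _ Hc.apply_zero) _ _ (up_one E e) (lo_one E e _ Hc.apply_one) (up_coray E e)
    (lo_coray E e _) (up_fst E e) (0, 1) (up_sB E e) (lo_sB E e _)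

end

end Pool.Agent.Lib.MP_146573_gt.C
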