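import Pool.Agent.Lib.MP_146573_gt.C.Level

open scoped RealInnerProductSpace
open Quaternion

namespace Pool.Agent.Lib.MP_146573_gt.C

noncomputable section

/-- Two points lie in a common preconnected subset of the level set. -/
def Jn (x y : V6) : Prop := ∃ t : Set V6, t ⊆ {x | Lv x} ∧ IsPreconnected t ∧ x ∈ t ∧ y ∈ t

theorem Jn.trans {x y z : V6} (h1 : Jn x y) (h2 : Jn y z) : Jn x z := by
  obtain ⟨s, hs, cs, xs, ys⟩ := h1
  obtain ⟨t, ht, ct, yt, zt⟩ := h2
  exact ⟨s ∪ t, Set.union_subset hs ht, cs.union y ys yt ct, Or.inl xs, Or.inr zt⟩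

theorem Jn.symm {x y : V6} (h : Jn x y) : Jn y x := by
  obtain ⟨s, hs, cs, xs, ys⟩ := h
  exact ⟨s, hs, cs, ys, xs⟩

theorem jn_rho {x : V6} (h : Lv x) {g : ℍ[ℝ]} {z : ℂ} (hg : ‖g‖ = 1) (hz : ‖z‖ = 1) :
    Jn x (rho g z x) := by
  refine ⟨(fun p : ℍ[ℝ] × ℂ => rho p.1 p.2 x) ''
    (Metric.sphere (0 : ℍ[ℝ]) 1 ×ˢ Metric.sphere (0 : ℂ) 1), ?_, ?_, ?_, ?_⟩
  · rintro _ ⟨⟨g, z⟩, ⟨hg, hz⟩, rfl⟩
    exact h.rho (by simpa using hg) (by simpa using hz)
  · refine IsPreconnected.image ?_ _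
      (Continuous.clm_apply (𝕜 := ℝ) (E := V6) (F := V6) continuous_rho continuous_const).continuousOn
    apply IsPreconnected.prod
    · apply isPreconnected_sphere
      rw [Quaternion.rank_eq_four]
      norm_num
    · apply isPreconnected_sphere
      rw [Complex.rank_real_complex]
      norm_num
  · exact ⟨(1, 1), ⟨by simp, by simp⟩, by simp [rho_one]⟩
  · exact ⟨(g, z), ⟨by simpa using hg, by simpa using hz⟩, rfl⟩

/-- A quaternion from its four coordinates. -/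
def q4 (a b c d : ℝ) : ℍ[ℝ] := ⟨a, b, c, d⟩

@[simp] theorem q4_re (a b c d : ℝ) : (q4 a b c d).re = a := rfl
@[simp] theorem q4_imI (a b c d : ℝ) : (q4 a b c d).imI = b := rfl
@[simp] theorem q4_imJ (a b c d : ℝ) : (q4 a b c d).imJ = c := rfl
@[simp] theorem q4_imK (a b c d : ℝ) : (q4 a b c d).imK = d := rfl

theorem continuous_quat {X : Type} [TopologicalSpace X] {a b c d : X → ℝ} (ha : Continuous a)
    (hb : Continuous b) (hc : Continuous c) (hd : Continuous d) :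
    Continuous fun x => q4 (a x) (b x) (c x) (d x) := by
  have e : (fun x => q4 (a x) (b x) (c x) (d x)) = fun x => a x • q4 1 0 0 0 +
      b x • q4 0 1 0 0 + c x • q4 0 0 1 0 + d x • q4 0 0 0 1 := by
    funext x
    ext <;> simp
  rw [e]
  exact (((ha.smul continuous_const).add (hb.smul continuous_const)).add
    (hc.smul continuous_const)).add (hd.smul continuous_const)

/-- A vector from its six coordinates. -/
def mk6 (a b c d e f : ℍ[ℝ]) : V6 := WithLp.toLp 2 ![a, b, c, d, e, f]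

@[simp] theorem mk6_0 (a b c d e f : ℍ[ℝ]) : mk6 a b c d e f 0 = a := rfl
@[simp] theorem mk6_1 (a b c d e f : ℍ[ℝ]) : mk6 a b c d e f 1 = b := rfl
@[simp] theorem mk6_2 (a b c d e f : ℍ[ℝ]) : mk6 a b c d e f 2 = c := rfl
@[simp] theorem mk6_3 (a b c d e f : ℍ[ℝ]) : mk6 a b c d e f 3 = d := rfl
@[simp] theorem mk6_4 (a b c d e f : ℍ[ℝ]) : mk6 a b c d e f 4 = e := rfl
@[simp] theorem mk6_5 (a b c d e f : ℍ[ℝ]) : mk6 a b c d e f 5 = f := rfl

theorem continuous_mk6 {X : Type} [TopologicalSpace X] {a b c d e f : X → ℍ[ℝ]} (ha : Continuous a)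
    (hb : Continuous b) (hc : Continuous c) (hd : Continuous d) (he : Continuous e)
    (hf : Continuous f) : Continuous fun x => mk6 (a x) (b x) (c x) (d x) (e x) (f x) := by
  refine (PiLp.continuous_toLp 2 _).comp (continuous_pi fun n => ?_)
  fin_cases n
  exacts [ha, hb, hc, hd, he, hf]

/-- The core of the level set: orthonormal two-frames in four-space. -/
def core (y : ℍ[ℝ]) (v : EuclideanSpace ℝ (Fin 3)) : V6 :=
  mk6 (q4 1 0 0 0) (q4 0 1 0 0) (q4 0 0 y.re (y * q4 0 (v 0) (v 1) (v 2)).re)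
    (q4 0 0 y.imI (y * q4 0 (v 0) (v 1) (v 2)).imI) (q4 0 0 y.imJ (y * q4 0 (v 0) (v 1) (v 2)).imJ)
    (q4 0 0 y.imK (y * q4 0 (v 0) (v 1) (v 2)).imK)

theorem continuous_core : Continuous fun p : ℍ[ℝ] × EuclideanSpace ℝ (Fin 3) => core p.1 p.2 := by
  have h : Continuous fun p : ℍ[ℝ] × EuclideanSpace ℝ (Fin 3) =>
      p.1 * q4 0 (p.2 0) (p.2 1) (p.2 2) :=
    continuous_fst.mul (by apply continuous_quat <;> fun_prop)
  exact continuous_mk6 continuous_const continuous_const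
    (continuous_quat continuous_const continuous_const
      (Quaternion.continuous_re.comp continuous_fst) (Quaternion.continuous_re.comp h))
    (continuous_quat continuous_const continuous_const
      (Quaternion.continuous_imI.comp continuous_fst) (Quaternion.continuous_imI.comp h))
    (continuous_quat continuous_const continuous_const
      (Quaternion.continuous_imJ.comp continuous_fst) (Quaternion.continuous_imJ.comp h))
    (continuous_quat continuous_const continuous_const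
      (Quaternion.continuous_imK.comp continuous_fst) (Quaternion.continuous_imK.comp h))

theorem norm_three {v : EuclideanSpace ℝ (Fin 3)} :
    ‖v‖ = 1 ↔ v 0 ^ 2 + v 1 ^ 2 + v 2 ^ 2 = 1 := by
  rw [EuclideanSpace.norm_eq, Real.sqrt_eq_one, Fin.sum_univ_three]
  simp

theorem norm_quat {y : ℍ[ℝ]} (h : y.re ^ 2 + y.imI ^ 2 + y.imJ ^ 2 + y.imK ^ 2 = 1) : ‖y‖ = 1 := by
  have h1 : ‖y‖ * ‖y‖ = 1 := by
    rw [← Quaternion.normSq_eq_norm_mul_self, Quaternion.normSq_def', h]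
  nlinarith [norm_nonneg y]

theorem lv_core {y : ℍ[ℝ]} {v : EuclideanSpace ℝ (Fin 3)} (hy : ‖y‖ = 1) (hv : ‖v‖ = 1) :
    Lv (core y v) := by
  have h1 := normSq_one_of_norm hy
  have h2 := norm_three.mp hv
  refine ⟨?_, ?_, ?_, ?_, ?_, ?_, ?_, ?_, ?_, ?_, ?_, ?_⟩ <;>
    simp only [Fin.sum_univ_six, core, mk6_0, mk6_1, mk6_2, mk6_3, mk6_4, mk6_5, re_mul, imI_mul,
      imJ_mul, imK_mul, q4_re, q4_imI, q4_imJ, q4_imK]
  any_goals ring1
  · linear_combination h1
  · linear_combination (v 0 ^ 2 + v 1 ^ 2 + v 2 ^ 2) * h1 + h2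

/-- The base point. -/
def base : V6 := core 1 (WithLp.toLp 2 ![1, 0, 0])

theorem jn_core {x : V6} (h : Lv x) (h0 : x 0 = q4 1 0 0 0) (h1 : x 1 = q4 0 1 0 0)
    (hr : ∀ n : Fin 6, 2 ≤ n.val → (x n).re = 0 ∧ (x n).imI = 0) : Jn base x := by
  refine ⟨(fun p : ℍ[ℝ] × EuclideanSpace ℝ (Fin 3) => core p.1 p.2) ''
    (Metric.sphere (0 : ℍ[ℝ]) 1 ×ˢ Metric.sphere (0 : EuclideanSpace ℝ (Fin 3)) 1), ?_, ?_, ?_, ?_⟩
  · rintro _ ⟨⟨g, z⟩, ⟨hg, hz⟩, rfl⟩
    exact lv_core (by simpa using hg) (by simpa using hz)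
  · refine IsPreconnected.image ?_ _ continuous_core.continuousOn
    apply IsPreconnected.prod
    · apply isPreconnected_sphere
      rw [Quaternion.rank_eq_four]
      norm_num
    · apply isPreconnected_sphere
      rw [← Module.finrank_eq_rank, finrank_euclideanSpace_fin]
      norm_num
  · refine ⟨(1, WithLp.toLp 2 ![1, 0, 0]), ⟨by simp, ?_⟩, rfl⟩
    rw [mem_sphere_zero_iff_norm, norm_three]
    simp
  · obtain ⟨r2, i2⟩ := hr 2 (by decide)
    obtain ⟨r3, i3⟩ := hr 3 (by decide)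
    obtain ⟨r4, i4⟩ := hr 4 (by decide)
    obtain ⟨r5, i5⟩ := hr 5 (by decide)
    have g23 := h.g23
    have d2 := h.d2
    have d3 := h.d3
    simp only [Fin.sum_univ_six, h0, h1, r2, r3, r4, r5, q4_re, q4_imJ, q4_imK] at g23 d2 d3
    let y : ℍ[ℝ] := q4 (x 2).imJ (x 3).imJ (x 4).imJ (x 5).imJ
    let w : ℍ[ℝ] := q4 (x 2).imK (x 3).imK (x 4).imK (x 5).imK
    have hy : ‖y‖ = 1 := norm_quat (by simp only [y, q4_re, q4_imI, q4_imJ, q4_imK]; linear_combination d2)
    have hw : ‖w‖ = 1 := norm_quat (by simp only [w, q4_re, q4_imI, q4_imJ, q4_imK]; linear_combination d3)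
    have e0 : (star y * w).re = 0 := by
      simp only [y, w, re_mul, re_star, imI_star, imJ_star, imK_star, q4_re, q4_imI, q4_imJ,
        q4_imK]
      linear_combination g23
    have e1 := normSq_one_of_norm (g := star y * w) (by simp [hy, hw])
    let v : EuclideanSpace ℝ (Fin 3) :=
      WithLp.toLp 2 ![(star y * w).imI, (star y * w).imJ, (star y * w).imK]
    have e2 : q4 0 (v 0) (v 1) (v 2) = star y * w := by
      ext
      · exact e0.symm
      all_goals rfl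
    have e3 : y * q4 0 (v 0) (v 1) (v 2) = w := by
      rw [e2, ← mul_assoc, quat_mul_star hy, one_mul]
    refine ⟨(y, v), ⟨by simpa using hy, ?_⟩, ?_⟩
    · rw [mem_sphere_zero_iff_norm, norm_three]
      rw [e0] at e1
      change (star y * w).imI ^ 2 + (star y * w).imJ ^ 2 + (star y * w).imK ^ 2 = 1
      linear_combination e1
    · show core y v = x
      unfold core
      rw [e3]
      apply V6_ext
      · exact h0.symm
      · exact h1.symm
      · ext <;> simp [y, w, r2, i2]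
      · ext <;> simp [y, w, r3, i3]
      · ext <;> simp [y, w, r4, i4]
      · ext <;> simp [y, w, r5, i5]

/-- Rescaling of the two complex components of a quaternion. -/
def sc (μ κ : ℝ) (q : ℍ[ℝ]) : ℍ[ℝ] := q4 (μ * q.re) (μ * q.imI) (κ * q.imJ) (κ * q.imK)

/-- The deformation of a point in normal form. -/
def df (y : V6) (σ l μ κ : ℝ) : V6 :=
  mk6 (q4 (σ * (((y 0).re - (y 1).imI) / 2) + l * (((y 0).re + (y 1).imI) / 2))
      (σ * ((y 1).re / 2) - l * ((y 1).re / 2)) 0 0)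
    (q4 (σ * ((y 1).re / 2) + l * ((y 1).re / 2))
      (l * (((y 0).re + (y 1).imI) / 2) - σ * (((y 0).re - (y 1).imI) / 2)) 0 0)
    (sc μ κ (y 2)) (sc μ κ (y 3)) (sc μ κ (y 4)) (sc μ κ (y 5))

/-- Squared length of the first complex parameter. -/
def aa (y : V6) : ℝ := (((y 0).re - (y 1).imI) / 2) ^ 2 + ((y 1).re / 2) ^ 2

/-- The common squared length of the rows. -/
def rr (y : V6) : ℝ := ∑ n, (y n).re ^ 2

theorem lv_df {y : V6} (h : Lv y) (hn : Nf y) {σ l μ κ : ℝ} (h1 : μ ^ 2 = σ * l)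
    (h2 : l ^ 2 * (aa y + 1) = 1 + σ ^ 2 * aa y)
    (h3 : κ ^ 2 * rr y = σ * l * (rr y - 2 * aa y - 1) + σ ^ 2 * aa y + l ^ 2 * (aa y + 1)) :
    Lv (df y σ l μ κ) := by
  obtain ⟨g01, g02, g03, g12, g13, g23, d1, d2, d3, -, -, -⟩ := h
  obtain ⟨i0, j0, k0, j1, k1, rt⟩ := hn
  simp only [Fin.sum_univ_six, i0, j0, k0, j1, k1, aa, rr] at g01 g02 g03 g12 g13 g23 d1 d2 d3 h2 h3
  refine ⟨?_, ?_, ?_, ?_, ?_, ?_, ?_, ?_, ?_, ?_, ?_, ?_⟩ <;>
    simp only [Fin.sum_univ_six, df, sc, mk6_0, mk6_1, mk6_2, mk6_3, mk6_4, mk6_5, q4_re, q4_imI,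
      q4_imJ, q4_imK]
  · linear_combination σ * l * g01 + ((y 2).re * (y 2).imI + (y 3).re * (y 3).imI
      + (y 4).re * (y 4).imI + (y 5).re * (y 5).imI) * h1
  · linear_combination μ * κ * g02
  · linear_combination μ * κ * g03
  · linear_combination μ * κ * g12
  · linear_combination μ * κ * g13
  · linear_combination κ ^ 2 * g23
  · linear_combination σ * l * d1 + ((y 2).imI ^ 2 + (y 3).imI ^ 2 + (y 4).imI ^ 2 + (y 5).imI ^ 2
      - ((y 2).re ^ 2 + (y 3).re ^ 2 + (y 4).re ^ 2 + (y 5).re ^ 2)) * h1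
  · linear_combination κ ^ 2 * d2 + h3
      - ((y 2).re ^ 2 + (y 3).re ^ 2 + (y 4).re ^ 2 + (y 5).re ^ 2) * h1
      + (σ * l - l ^ 2) * rt
  · linear_combination κ ^ 2 * d3 + h3
      - ((y 2).re ^ 2 + (y 3).re ^ 2 + (y 4).re ^ 2 + (y 5).re ^ 2) * h1
      + (σ * l - l ^ 2) * rt
  · linear_combination h2 + l ^ 2 * rt
  · ring1
  · ring1

theorem jn_nf {y : V6} (h : Lv y) (hn : Nf y) : Jn base y := by
  have hA : 0 ≤ aa y := by unfold aa; positivity
  have hρ : (y 0).re ≠ 0 := left_ne_zero_of_mul_eq_one hn.rt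
  have hR : 0 < rr y := by
    simp only [rr, Fin.sum_univ_six]
    positivity
  have hB : 0 ≤ rr y - 2 * aa y - 1 := by
    have d1 := h.d1
    have rt := hn.rt
    simp only [Fin.sum_univ_six, hn.i0] at d1
    simp only [rr, aa, Fin.sum_univ_six]
    nlinarith [sq_nonneg (y 2).re, sq_nonneg (y 3).re, sq_nonneg (y 4).re, sq_nonneg (y 5).re,
      sq_nonneg (y 2).imI, sq_nonneg (y 3).imI, sq_nonneg (y 4).imI, sq_nonneg (y 5).imI]
  let l : ℝ → ℝ := fun σ => √((1 + σ ^ 2 * aa y) / (aa y + 1))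
  let μ : ℝ → ℝ := fun σ => √(σ * l σ)
  let κ : ℝ → ℝ := fun σ =>
    √((σ * l σ * (rr y - 2 * aa y - 1) + σ ^ 2 * aa y + l σ ^ 2 * (aa y + 1)) / rr y)
  have cl : Continuous l := by fun_prop
  have cμ : Continuous μ := by fun_prop
  have cκ : Continuous κ := by fun_prop
  have hl : ∀ σ, l σ ^ 2 * (aa y + 1) = 1 + σ ^ 2 * aa y := fun σ => by
    rw [Real.sq_sqrt (by positivity), div_mul_cancel₀ _ (by positivity)]
  have hl0 : ∀ σ, 0 ≤ l σ := fun σ => Real.sqrt_nonneg _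
  have hz : ∀ σ, 0 ≤ σ → Lv (df y σ (l σ) (μ σ) (κ σ)) := fun σ hσ => by
    have := hl0 σ
    refine lv_df h hn (Real.sq_sqrt (by positivity)) (hl σ) ?_
    rw [Real.sq_sqrt (by positivity), div_mul_cancel₀ _ hR.ne']
  have csc : ∀ q, Continuous fun σ => sc (μ σ) (κ σ) q := fun q =>
    continuous_quat (cμ.mul continuous_const) (cμ.mul continuous_const) (cκ.mul continuous_const)
      (cκ.mul continuous_const)
  have cdf : Continuous fun σ => df y σ (l σ) (μ σ) (κ σ) :=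
    continuous_mk6 (by apply continuous_quat <;> fun_prop) (by apply continuous_quat <;> fun_prop)
      (csc _) (csc _) (csc _) (csc _)
  have l1 : l 1 = 1 := by
    simp only [l]
    rw [one_pow, one_mul, add_comm, div_self (by positivity), Real.sqrt_one]
  have μ1 : μ 1 = 1 := by simp only [μ, l1, one_mul, Real.sqrt_one]
  have κ1 : κ 1 = 1 := by
    simp only [κ, l1]
    rw [Real.sqrt_eq_one, div_eq_one_iff_eq hR.ne']
    ring
  have μ0 : μ 0 = 0 := by simp [μ]
  have e1 : df y 1 (l 1) (μ 1) (κ 1) = y := by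
    rw [l1, μ1, κ1]
    apply V6_ext <;> ext <;> simp [df, sc, hn.i0, hn.j0, hn.k0, hn.j1, hn.k1] <;> ring
  have j1 : Jn (df y 0 (l 0) (μ 0) (κ 0)) y :=
    ⟨(fun σ => df y σ (l σ) (μ σ) (κ σ)) '' Set.Icc 0 1,
      by rintro _ ⟨σ, hσ, rfl⟩; exact hz σ hσ.1,
      isPreconnected_Icc.image _ cdf.continuousOn, ⟨0, by simp, rfl⟩, ⟨1, by simp, e1⟩⟩
  refine Jn.trans ?_ j1
  have h0 := hl 0
  have rt := hn.rt
  simp only [aa] at h0
  let z : ℂ := ⟨l 0 * (((y 0).re + (y 1).imI) / 2), -(l 0 * ((y 1).re / 2))⟩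
  have hz1 : ‖z‖ = 1 := by
    have : ‖z‖ ^ 2 = 1 := by
      rw [← Complex.normSq_eq_norm_sq, Complex.normSq_apply]
      simp only [z]
      linear_combination h0 + l 0 ^ 2 * rt
    nlinarith [norm_nonneg z]
  refine Jn.trans (jn_core ((hz 0 le_rfl).rho (g := 1) (by simp) hz1) ?_ ?_ ?_)
    (jn_rho (hz 0 le_rfl) (by simp) hz1).symm
  · rw [rho_apply0]
    ext <;> simp [df, z]
    · linear_combination h0 + l 0 ^ 2 * rt
    · ring
  · rw [rho_apply1]
    ext <;> simp [df, z]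
    · ring
    · linear_combination h0 + l 0 ^ 2 * rt
  · intro n hn
    fin_cases n
    · simp at hn
    · simp at hn
    all_goals simp [rho_apply2, rho_apply3, rho_apply4, rho_apply5, df, sc, μ0]

theorem jn_base {x : V6} (h : Lv x) : Jn base x := by
  obtain ⟨g, hg, hn⟩ := h.exists_nf
  exact (jn_nf (h.rho hg (by simp)) hn).trans (jn_rho h hg (by simp)).symm

theorem isConnected_lv : IsConnected {x : V6 | Lv x} := by
  refine ⟨⟨base, lv_core (by simp) (norm_three.mpr (by simp))⟩,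
    isPreconnected_of_forall base fun y hy => ?_⟩
  obtain ⟨t, ht, ct, h1, h2⟩ := jn_base hy
  exact ⟨t, ht, h1, h2, ct⟩

end

end Pool.Agent.Lib.MP_146573_gt.C
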