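import Pool.Agent.Lib.MP_146573_gt.C.Level

open scoped RealInnerProductSpace
open Quaternion Set

namespace Pool.Agent.Lib.MP_146573_gt.C

noncomputable section

theorem flowCompact_of {V : Type} [NormedAddCommGroup V] [InnerProductSpace ℝ V] [CompleteSpace V]
    [ProperSpace V] (f : V → ℝ) (hf : Differentiable ℝ f) (h0 : ∀ x, 0 ≤ f x)
    (key : ∀ C : ℝ, 0 ≤ C → ∃ R M : ℝ, 0 ≤ R ∧ 0 ≤ M ∧ ∀ x, f x ≤ C → R ≤ ⟪x, x⟫ → ∀ ε : ℝ, 0 < ε →
      -2 * ⟪x, gradient f x⟫ - 5 * (‖gradient f x‖ ^ 2 / (2 * √(f x + ε ^ 2))) ≤ M * ε) :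
    FlowCompact f := by
  intro x
  obtain ⟨R, M, hR, hM, hk⟩ := key (f x) (h0 x)
  refine ⟨Metric.closedBall 0 √(⟪x, x⟫ + R + 5 * √(f x + 1) + 1), isCompact_closedBall _ _, ?_⟩
  intro T γ hγ0 hγ t ht
  have hT : 0 ≤ T := ht.1.trans ht.2
  obtain ⟨ε, hε, hε1, hε2⟩ : ∃ ε : ℝ, 0 < ε ∧ ε ≤ 1 ∧ (M + 1) * ε * T ≤ 1 := by
    have hp : 0 < (M + 1) * (T + 1) := by positivity
    refine ⟨1 / ((M + 1) * (T + 1)), by positivity, ?_, ?_⟩
    · rw [div_le_one hp]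
      nlinarith [mul_nonneg hM hT]
    · rw [mul_right_comm, mul_one_div, div_le_one hp]
      nlinarith
  have hle := flow_le f hf T γ hγ
  rw [hγ0] at hle
  have hpos : ∀ y, 0 < f y + ε ^ 2 := fun y => by
    have := h0 y
    positivity
  have hd : ∀ s ∈ Icc 0 T, HasDerivWithinAt (fun s => ⟪γ s, γ s⟫ + 5 * √(f (γ s) + ε ^ 2))
      (-2 * ⟪γ s, gradient f (γ s)⟫ -
        5 * (‖gradient f (γ s)‖ ^ 2 / (2 * √(f (γ s) + ε ^ 2)))) (Icc 0 T) s := by
    intro s hs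
    have h1 := (hf (γ s)).hasGradientAt.hasFDerivAt
    have h2 := h1.comp_hasDerivWithinAt s (hγ s hs)
    have h3 : (InnerProductSpace.toDual ℝ V (gradient f (γ s))) (-gradient f (γ s))
        = -‖gradient f (γ s)‖ ^ 2 := by
      rw [InnerProductSpace.toDual_apply_apply, inner_neg_right, real_inner_self_eq_norm_sq]
    rw [h3] at h2
    have h4 := ((h2.add_const (ε ^ 2)).sqrt (hpos _).ne').const_mul 5
    have h5 := ((hγ s hs).inner ℝ (hγ s hs)).add h4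
    refine h5.congr_deriv ?_
    rw [inner_neg_right, inner_neg_left, real_inner_comm (γ s) (gradient f (γ s))]
    simp only [Function.comp_apply]
    ring
  have hs1 : ∀ s ∈ Icc 0 T, √(f (γ s) + ε ^ 2) ≤ √(f x + 1) := fun s hs =>
    Real.sqrt_le_sqrt (by nlinarith [hle s hs])
  have hxx : 0 ≤ ⟪x, x⟫ := real_inner_self_nonneg
  have hB := image_le_of_deriv_right_lt_deriv_boundary
    (f := fun s => ⟪γ s, γ s⟫ + 5 * √(f (γ s) + ε ^ 2)) (a := 0) (b := T)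
    (fun s hs => (hd s hs).continuousWithinAt)
    (fun s hs => (hd s (Ico_subset_Icc_self hs)).mono_of_mem_nhdsWithin (Icc_mem_nhdsGE_of_mem hs))
    (B := fun s => ⟪x, x⟫ + R + 5 * √(f x + 1) + (M + 1) * ε * s) (B' := fun _ => (M + 1) * ε)
    (by
      have := hs1 0 ⟨le_rfl, hT⟩
      simp only [hγ0] at this ⊢
      linarith)
    (fun s => by
      simpa using ((hasDerivAt_id s).const_mul ((M + 1) * ε)).const_add
        (⟪x, x⟫ + R + 5 * √(f x + 1)))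
    (fun s hs he => by
      have hs' := Ico_subset_Icc_self hs
      have h1 : 0 ≤ (M + 1) * ε * s := mul_nonneg (by positivity) hs.1
      have h2 := hk (γ s) (hle s hs') (by linarith [hs1 s hs']) ε hε
      linarith) ht
  rw [mem_closedBall_zero_iff]
  apply Real.le_sqrt_of_sq_le
  rw [← real_inner_self_eq_norm_sq]
  have h1 : (M + 1) * ε * t ≤ (M + 1) * ε * T := mul_le_mul_of_nonneg_left ht.2 (by positivity)
  have h2 := Real.sqrt_nonneg (f (γ t) + ε ^ 2)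
  linarith

theorem real_key {α β r b M W D s ε : ℝ} (hα : 0 ≤ α) (hβ : 0 ≤ β) (hr : 0 ≤ r) (hε : 0 ≤ ε)
    (hs : 0 < s) (hs2 : s ^ 2 = α ^ 2 + β ^ 2 + ε ^ 2) (hb : r ≤ b / 2) (hM : r ≤ M)
    (hD : D ≤ 8 * r * β) (hW : M * α ^ 2 + β ^ 2 * b / 2 ≤ W) :
    D - 5 * (4 * W / (2 * s)) ≤ 8 * M * ε := by
  have h1 : s ≤ α + β + ε := by
    apply le_of_sq_le_sq _ (by positivity)
    nlinarith [mul_nonneg hα hβ, mul_nonneg hα hε, mul_nonneg hβ hε]
  have h2 : β ≤ s := by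
    apply le_of_sq_le_sq _ hs.le
    nlinarith [sq_nonneg α, sq_nonneg ε]
  have h3 : D * s ≤ 8 * r * β * (α + β + ε) :=
    (mul_le_mul_of_nonneg_right hD hs.le).trans (mul_le_mul_of_nonneg_left h1 (by positivity))
  have h4 : r * β ^ 2 ≤ b / 2 * β ^ 2 := mul_le_mul_of_nonneg_right hb (sq_nonneg _)
  have h5 : r * α ^ 2 ≤ M * α ^ 2 := mul_le_mul_of_nonneg_right hM (sq_nonneg _)
  have h6 : r * β * ε ≤ M * s * ε :=
    mul_le_mul_of_nonneg_right (mul_le_mul hM h2 hβ (hr.trans hM)) hε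
  have h7 : 0 ≤ r * (β - 2 * α) ^ 2 := by positivity
  have h8 : 0 ≤ r * α ^ 2 := by positivity
  have h9 : D - 8 * M * ε ≤ 10 * W / s := by
    rw [le_div_iff₀ hs]
    nlinarith
  have h10 : 5 * (4 * W / (2 * s)) = 10 * W / s := by
    field_simp
    ring
  linarith

/-- The norm square of the moment map. -/
def ff (x : V6) : ℝ := ∑ a, ⟪mom (uu a) (cc a) x, mom (uu a) (cc a) x⟫

theorem differentiable_ff : Differentiable ℝ ff := by
  unfold ff
  apply Differentiable.fun_sum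
  intro a _
  exact (differentiable_mom _ _).inner ℝ (differentiable_mom _ _)

theorem ff_nonneg (x : V6) : 0 ≤ ff x := Finset.sum_nonneg fun _ _ => real_inner_self_nonneg

theorem hasFDerivAt_mom_sq {u : ℍ[ℝ]} (hu : u.re = 0) (c : ℝ) (x : V6) :
    HasFDerivAt (fun y => ⟪mom u c y, mom u c y⟫)
      (innerSL ℝ ((2 : ℝ) • rmul u (phi (mom u c x) x))) x := by
  have hm := (differentiable_mom u c x).hasFDerivAt
  have h2 := (hm.inner ℝ (hasFDerivAt_const (mom u c x) x)).unique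
    (hasFDerivAt_mom hu c (mom u c x) x)
  refine (hm.inner ℝ hm).congr_fderiv ?_
  ext1 v
  have h3 := congrArg (fun T : V6 →L[ℝ] ℝ => T v) h2
  simp only [ContinuousLinearMap.comp_apply, ContinuousLinearMap.prod_apply,
    fderivInnerCLM_apply, zero_apply, inner_zero_right, zero_add,
    innerSL_apply_apply, real_inner_smul_left] at h3 ⊢
  rw [real_inner_comm (fderiv ℝ (mom u c) x v), h3]
  ring

/-- Half of the gradient, with the moment map as a parameter. -/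
def WW (p : Fin 3 → ℍ[ℝ]) (x : V6) : V6 := ∑ a, rmul (uu a) (phi (p a) x)

theorem gradient_ff (x : V6) :
    gradient ff x = (2 : ℝ) • WW (fun a => mom (uu a) (cc a) x) x := by
  apply HasGradientAt.gradient
  rw [hasGradientAt_iff_hasFDerivAt]
  have h := HasFDerivAt.fun_sum (u := Finset.univ)
    fun a _ => hasFDerivAt_mom_sq (uu_re a) (cc a) x
  refine h.congr_fderiv ?_
  rw [WW, Finset.smul_sum, map_sum]
  rfl

theorem WW_sq (p : Fin 3 → ℍ[ℝ]) (x : V6) : ⟪WW p x, WW p x⟫ =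
    (⟪(p 0).im, (p 0).im⟫ + ⟪(p 1).im, (p 1).im⟫ + ⟪(p 2).im, (p 2).im⟫) * ⟪x, x⟫
    + ((p 0).re ^ 2 + (p 1).re ^ 2 + (p 2).re ^ 2) * (⟪x 0, x 0⟫ + ⟪x 1, x 1⟫)
    + 4 * ((p 0).re * ⟪(p 0).im, (x 0 * star (x 1)).im⟫
      + (p 1).re * ⟪(p 1).im, (x 0 * star (x 1)).im⟫
      + (p 2).re * ⟪(p 2).im, (x 0 * star (x 1)).im⟫)
    + 4 * (⟪(p 0).im * (p 1).im, (mom (uu 2) (cc 2) x).im⟫
      + ⟪(p 1).im * (p 2).im, (mom (uu 0) (cc 0) x).im⟫
      + ⟪(p 2).im * (p 0).im, (mom (uu 1) (cc 1) x).im⟫) := by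
  simp only [WW, Fin.sum_univ_three, inner_V6, PiLp.add_apply, rmul_apply, phi_apply0, phi_apply1,
    phi_apply2, phi_apply3, phi_apply4, phi_apply5, inner_quat, mom, uu0, uu1, uu2,
    re_sub, imI_sub, imJ_sub, imK_sub, re_add, imI_add,
    imJ_add, imK_add, re_mul, imI_mul, imJ_mul, imK_mul, re_smul, imI_smul, imJ_smul, imK_smul,
    re_coe, imI_coe, imJ_coe, imK_coe, smul_eq_mul, re_star, imI_star, imJ_star, imK_star,
    re_im, imI_im, imJ_im, imK_im]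
  ring

theorem inner_WW (x : V6) : ⟪x, WW (fun a => mom (uu a) (cc a) x) x⟫ =
    2 * (ff x - (mom (uu 0) (cc 0) x).re) := by
  have e0 : cc 0 = -1 := rfl
  have e1 : cc 1 = 0 := rfl
  have e2 : cc 2 = 0 := rfl
  have h := fun a => inner_mom (uu_re a) (cc a) (mom (uu a) (cc a) x) x
  have h0 := h 0
  have h1 := h 1
  have h2 := h 2
  rw [real_inner_comm]
  simp only [WW, ff, Fin.sum_univ_three, inner_add_left]
  rw [e1] at h1 ⊢
  rw [e2] at h2 ⊢
  rw [e0] at h0 ⊢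
  linarith

theorem norm_k (x : V6) : ‖(x 0 * star (x 1)).im‖ ^ 2 = ((mom (uu 0) (cc 0) x).re - 1) ^ 2
    + (mom (uu 1) (cc 1) x).re ^ 2 + (mom (uu 2) (cc 2) x).re ^ 2 := by
  have e0 : cc 0 = -1 := rfl
  have e1 : cc 1 = 0 := rfl
  have e2 : cc 2 = 0 := rfl
  rw [← real_inner_self_eq_norm_sq]
  simp only [inner_quat, mom, uu0, uu1, uu2, e0, e1, e2,
    re_sub, re_add, re_mul, imI_mul, imJ_mul, imK_mul, re_smul,
    re_coe, smul_eq_mul, re_star, imI_star, imJ_star, imK_star,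
    re_im, imI_im, imJ_im, imK_im]
  ring

theorem norm_k_le (a b : ℍ[ℝ]) : ‖(a * star b).im‖ ≤ (⟪a, a⟫ + ⟪b, b⟫) / 2 := by
  have h1 : ‖(a * star b).im‖ ≤ ‖a * star b‖ := by
    apply le_of_sq_le_sq _ (norm_nonneg _)
    rw [← real_inner_self_eq_norm_sq, ← real_inner_self_eq_norm_sq]
    simp only [inner_quat, re_im, imI_im, imJ_im, imK_im]
    nlinarith [mul_self_nonneg (a * star b).re]
  rw [norm_mul, norm_star] at h1
  rw [real_inner_self_eq_norm_sq, real_inner_self_eq_norm_sq]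
  nlinarith [sq_nonneg (‖a‖ - ‖b‖)]

theorem inner_split (p : ℍ[ℝ]) : ⟪p, p⟫ = p.re ^ 2 + ⟪p.im, p.im⟫ := by
  simp only [inner_quat, re_im, imI_im, imJ_im, imK_im]
  ring

theorem cross_le (ν : ℝ) (σ k : ℍ[ℝ]) :
    -(‖k‖ * ν ^ 2 + 4 * ‖k‖ * ⟪σ, σ⟫) ≤ 4 * (ν * ⟪σ, k⟫) := by
  have h1 : |ν * ⟪σ, k⟫| ≤ |ν| * (‖σ‖ * ‖k‖) := by
    rw [abs_mul]
    exact mul_le_mul_of_nonneg_left (abs_real_inner_le_norm σ k) (abs_nonneg _)
  have h2 := neg_abs_le (ν * ⟪σ, k⟫)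
  have h3 : 0 ≤ ‖k‖ * (|ν| - 2 * ‖σ‖) ^ 2 := by positivity
  rw [real_inner_self_eq_norm_sq, ← sq_abs ν]
  nlinarith

theorem cubic_le {C : ℝ} (a b c : ℍ[ℝ]) (hb : ⟪b, b⟫ ≤ C) :
    -(C * ⟪a, a⟫ + ⟪c, c⟫) ≤ 2 * ⟪a * b, c⟫ := by
  have h1 := neg_abs_le ⟪a * b, c⟫
  have h2 := abs_real_inner_le_norm (a * b) c
  rw [norm_mul] at h2
  rw [real_inner_self_eq_norm_sq] at hb
  rw [real_inner_self_eq_norm_sq, real_inner_self_eq_norm_sq]
  nlinarith [sq_nonneg (‖a‖ * ‖b‖ - ‖c‖), mul_le_mul_of_nonneg_left hb (sq_nonneg ‖a‖)]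

theorem ff_flowCompact : FlowCompact ff := by
  refine flowCompact_of ff differentiable_ff ff_nonneg fun C hC =>
    ⟨2 * (C + 1) + 5 * (C + 2), 8 * (C + 2), by positivity, by positivity, ?_⟩
  intro x hx hR ε hε
  have hW := WW_sq (fun a => mom (uu a) (cc a) x) x
  have hD := inner_WW x
  have hk := norm_k x
  have hb := norm_k_le (x 0) (x 1)
  have hg : ‖gradient ff x‖ ^ 2 = 4 * ⟪WW (fun a => mom (uu a) (cc a) x) x,
      WW (fun a => mom (uu a) (cc a) x) x⟫ := by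
    rw [gradient_ff, ← real_inner_self_eq_norm_sq, real_inner_smul_left, real_inner_smul_right]
    ring
  have hf : ff x = _ := Fin.sum_univ_three _
  have hpos : 0 < ff x + ε ^ 2 := by
    have := ff_nonneg x
    positivity
  rw [hg, gradient_ff, real_inner_smul_right, hD]
  beta_reduce at hW
  generalize ⟪WW (fun a => mom (uu a) (cc a) x) x, WW (fun a => mom (uu a) (cc a) x) x⟫ = W at hW
  generalize mom (uu 0) (cc 0) x = p0 at *
  generalize mom (uu 1) (cc 1) x = p1 at *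
  generalize mom (uu 2) (cc 2) x = p2 at *
  generalize (x 0 * star (x 1)).im = k at *
  generalize ⟪x 0, x 0⟫ + ⟪x 1, x 1⟫ = b at *
  generalize ⟪x, x⟫ = X at *
  generalize ff x = f at *
  rw [inner_split p0, inner_split p1, inner_split p2] at hf
  have c0 := cross_le p0.re p0.im k
  have c1 := cross_le p1.re p1.im k
  have c2 := cross_le p2.re p2.im k
  have s0 : 0 ≤ ⟪p0.im, p0.im⟫ := real_inner_self_nonneg
  have s1 : 0 ≤ ⟪p1.im, p1.im⟫ := real_inner_self_nonneg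
  have s2 : 0 ≤ ⟪p2.im, p2.im⟫ := real_inner_self_nonneg
  have n0 := sq_nonneg p0.re
  have n1 := sq_nonneg p1.re
  have n2 := sq_nonneg p2.re
  have d0 := cubic_le (C := C) p0.im p1.im p2.im (by linarith)
  have d1 := cubic_le (C := C) p1.im p2.im p0.im (by linarith)
  have d2 := cubic_le (C := C) p2.im p0.im p1.im (by linarith)
  have hr := norm_nonneg k
  generalize ‖k‖ = r at *
  obtain ⟨S, hS⟩ : ∃ S, S = ⟪p0.im, p0.im⟫ + ⟪p1.im, p1.im⟫ + ⟪p2.im, p2.im⟫ := ⟨_, rfl⟩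
  obtain ⟨n, hn⟩ : ∃ n, n = p0.re ^ 2 + p1.re ^ 2 + p2.re ^ 2 := ⟨_, rfl⟩
  have hS0 : 0 ≤ S := by linarith
  have hn0 : 0 ≤ n := by linarith
  have hM : r ≤ C + 2 := by
    apply le_of_sq_le_sq _ (by positivity)
    nlinarith [sq_nonneg (p0.re + 1), sq_nonneg C]
  refine real_key (α := √S) (β := √n) (r := r) (b := b) (Real.sqrt_nonneg _) (Real.sqrt_nonneg _)
    hr hε.le (Real.sqrt_pos.mpr hpos) ?_ hb hM ?_ ?_
  · rw [Real.sq_sqrt hpos.le, Real.sq_sqrt hS0, Real.sq_sqrt hn0]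
    linarith
  · have h1 : p0.re - n ≤ r * √n := by
      apply le_of_sq_le_sq _ (by positivity)
      rw [mul_pow, Real.sq_sqrt hn0, hk, hn]
      nlinarith [sq_nonneg p1.re, sq_nonneg p2.re]
    linarith
  · rw [Real.sq_sqrt hS0, Real.sq_sqrt hn0]
    have h1 : S * (2 * (C + 1) + 5 * (C + 2)) ≤ S * X := mul_le_mul_of_nonneg_left hR hS0
    have h2 : r * n ≤ b / 2 * n := mul_le_mul_of_nonneg_right hb hn0
    have h3 : r * S ≤ (C + 2) * S := mul_le_mul_of_nonneg_right hM hS0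
    have h4 : -(r * n + 4 * (r * S)) ≤ 4 * (p0.re * ⟪p0.im, k⟫ + p1.re * ⟪p1.im, k⟫
        + p2.re * ⟪p2.im, k⟫) := by
      rw [hS, hn]
      linarith
    have h5 : -(2 * ((C + 1) * S)) ≤ 4 * (⟪p0.im * p1.im, p2.im⟫ + ⟪p1.im * p2.im, p0.im⟫
        + ⟪p2.im * p0.im, p1.im⟫) := by
      rw [hS]
      linarith
    rw [← hS, ← hn] at hW
    linarith

end

end Pool.Agent.Lib.MP_146573_gt.C
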