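import Pool.Agent.Lib.MP_146573_gt.C.Moment

open scoped RealInnerProductSpace
open Quaternion

namespace Pool.Agent.Lib.MP_146573_gt.C

noncomputable section

/-- The equations of the level set in real coordinates. -/
structure Lv (x : V6) : Prop where
  g01 : ∑ n, (x n).re * (x n).imI = 0
  g02 : ∑ n, (x n).re * (x n).imJ = 0
  g03 : ∑ n, (x n).re * (x n).imK = 0
  g12 : ∑ n, (x n).imI * (x n).imJ = 0
  g13 : ∑ n, (x n).imI * (x n).imK = 0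
  g23 : ∑ n, (x n).imJ * (x n).imK = 0
  d1 : ∑ n, (x n).imI ^ 2 = ∑ n, (x n).re ^ 2
  d2 : ∑ n, (x n).imJ ^ 2 = ∑ n, (x n).re ^ 2
  d3 : ∑ n, (x n).imK ^ 2 = ∑ n, (x n).re ^ 2
  k0 : (x 0).re * (x 1).imI - (x 0).imI * (x 1).re + (x 0).imK * (x 1).imJ
    - (x 0).imJ * (x 1).imK = 1
  k1 : (x 0).re * (x 1).imJ - (x 0).imJ * (x 1).re + (x 0).imI * (x 1).imK
    - (x 0).imK * (x 1).imI = 0
  k2 : (x 0).re * (x 1).imK - (x 0).imK * (x 1).re + (x 0).imJ * (x 1).imI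
    - (x 0).imI * (x 1).imJ = 0

theorem lv_of_mom {x : V6} (h : ∀ a, mom (uu a) (cc a) x = 0) : Lv x := by
  have a0 := congrArg (fun q : ℍ[ℝ] => q.re) (h 0)
  have a1 := congrArg (fun q : ℍ[ℝ] => q.imI) (h 0)
  have a2 := congrArg (fun q : ℍ[ℝ] => q.imJ) (h 0)
  have a3 := congrArg (fun q : ℍ[ℝ] => q.imK) (h 0)
  have b0 := congrArg (fun q : ℍ[ℝ] => q.re) (h 1)
  have b1 := congrArg (fun q : ℍ[ℝ] => q.imI) (h 1)
  have b2 := congrArg (fun q : ℍ[ℝ] => q.imJ) (h 1)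
  have b3 := congrArg (fun q : ℍ[ℝ] => q.imK) (h 1)
  have c0 := congrArg (fun q : ℍ[ℝ] => q.re) (h 2)
  have c1 := congrArg (fun q : ℍ[ℝ] => q.imI) (h 2)
  have c2 := congrArg (fun q : ℍ[ℝ] => q.imJ) (h 2)
  have c3 := congrArg (fun q : ℍ[ℝ] => q.imK) (h 2)
  have e0 : cc 0 = -1 := rfl
  have e1 : cc 1 = 0 := rfl
  have e2 : cc 2 = 0 := rfl
  simp only [mom, uu0, uu1, uu2, e0, e1, e2, re_sub, imI_sub, imJ_sub, imK_sub, re_add, imI_add,
    imJ_add, imK_add, re_mul, imI_mul, imJ_mul, imK_mul, re_smul, imI_smul, imJ_smul, imK_smul,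
    re_coe, imI_coe, imJ_coe, imK_coe, smul_eq_mul, re_star, imI_star, imJ_star, imK_star, re_zero,
    imI_zero, imJ_zero, imK_zero] at a0 a1 a2 a3 b0 b1 b2 b3 c0 c1 c2 c3
  refine ⟨?_, ?_, ?_, ?_, ?_, ?_, ?_, ?_, ?_, ?_, ?_, ?_⟩ <;> try simp only [Fin.sum_univ_six]
  · linear_combination (1 / 2 : ℝ) * (b3 - c2)
  · linear_combination (1 / 2 : ℝ) * (c1 - a3)
  · linear_combination (1 / 2 : ℝ) * (a2 - b1)
  · linear_combination (1 / 2 : ℝ) * (a2 + b1)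
  · linear_combination (1 / 2 : ℝ) * (a3 + c1)
  · linear_combination (1 / 2 : ℝ) * (b3 + c2)
  · linear_combination -(b2 + c3)
  · linear_combination -(a1 + c3)
  · linear_combination -(a1 + b2)
  · linear_combination -a0
  · linear_combination -b0
  · linear_combination -c0

theorem mom_of_lv {x : V6} (h : Lv x) (a : Fin 3) : mom (uu a) (cc a) x = 0 := by
  obtain ⟨g01, g02, g03, g12, g13, g23, d1, d2, d3, k0, k1, k2⟩ := h
  simp only [Fin.sum_univ_six] at g01 g02 g03 g12 g13 g23 d1 d2 d3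
  fin_cases a <;> ext <;> simp [mom, uu, cc] <;> linarith

theorem Lv.rho {x : V6} (h : Lv x) {g : ℍ[ℝ]} {z : ℂ} (hg : ‖g‖ = 1) (hz : ‖z‖ = 1) :
    Lv (rho g z x) := by
  apply lv_of_mom
  intro a
  rw [mom_rho (uu_re a) _ hg hz, mom_of_lv h a]
  simp

/-- The first coordinate is real and the second is complex. -/
structure Nf (x : V6) : Prop where
  i0 : (x 0).imI = 0
  j0 : (x 0).imJ = 0
  k0 : (x 0).imK = 0
  j1 : (x 1).imJ = 0
  k1 : (x 1).imK = 0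
  rt : (x 0).re * (x 1).imI = 1

theorem Lv.exists_nf {x : V6} (h : Lv x) : ∃ g : ℍ[ℝ], ‖g‖ = 1 ∧ Nf (C.rho g 1 x) := by
  have h0 : x 0 ≠ 0 := by
    intro h0
    have := h.k0
    rw [h0] at this
    simp at this
  have hn : ‖x 0‖ ≠ 0 := norm_ne_zero_iff.mpr h0
  have hg : ‖‖x 0‖⁻¹ • star (x 0)‖ = 1 := by simp [norm_smul, hn]
  refine ⟨_, hg, ?_⟩
  have hy := h.rho hg (z := 1) (by simp)
  have e : C.rho (‖x 0‖⁻¹ • star (x 0)) 1 x 0 = ((‖x 0‖⁻¹ * normSq (x 0) : ℝ) : ℍ[ℝ]) := by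
    rw [rho_apply0]
    simp only [Complex.one_re, Complex.one_im, one_smul, zero_smul, sub_zero, smul_mul_assoc,
      star_mul_self]
    rw [Quaternion.coe_mul, Quaternion.coe_mul_eq_smul]
  generalize C.rho (‖x 0‖⁻¹ • star (x 0)) 1 x = y at hy e
  have i0 : (y 0).imI = 0 := by rw [e]; rfl
  have j0 : (y 0).imJ = 0 := by rw [e]; rfl
  have k0 : (y 0).imK = 0 := by rw [e]; rfl
  have a0 := hy.k0
  have a1 := hy.k1
  have a2 := hy.k2
  simp only [i0, j0, k0, zero_mul, sub_zero, add_zero] at a0 a1 a2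
  have hr : (y 0).re ≠ 0 := left_ne_zero_of_mul_eq_one a0
  exact ⟨i0, j0, k0, (mul_eq_zero.mp a1).resolve_left hr, (mul_eq_zero.mp a2).resolve_left hr, a0⟩

theorem Lv.free {x : V6} (h : Lv x) {g : ℍ[ℝ]} {z : ℂ} (hz : ‖z‖ = 1)
    (hfix : C.rho g z x = x) : C.rho g z = 1 := by
  have hg : g = 1 := by
    by_contra hg
    have key : ∀ q : ℍ[ℝ], g * q = q → q = 0 := by
      intro q hq
      by_contra h0
      exact hg (mul_right_cancel₀ h0 (hq.trans (one_mul q).symm))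
    have h2 : x 2 = 0 := key _ (by rw [← rho_apply2 g z x, hfix])
    have h3 : x 3 = 0 := key _ (by rw [← rho_apply3 g z x, hfix])
    have h4 : x 4 = 0 := key _ (by rw [← rho_apply4 g z x, hfix])
    have h5 : x 5 = 0 := key _ (by rw [← rho_apply5 g z x, hfix])
    obtain ⟨g', hg', hn⟩ := h.exists_nf
    have d := (h.rho hg' (z := 1) (by simp)).d2
    have rt := hn.rt
    simp only [Fin.sum_univ_six, hn.j0, hn.j1, rho_apply2, rho_apply3, rho_apply4, rho_apply5, h2,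
      h3, h4, h5, mul_zero, re_zero, imJ_zero] at d
    have : (C.rho g' 1 x 0).re = 0 := by
      nlinarith [sq_nonneg (C.rho g' 1 x 0).re, sq_nonneg (C.rho g' 1 x 1).re]
    rw [this, zero_mul] at rt
    exact zero_ne_one rt
  have h0 : z.re • x 0 - z.im • x 1 = x 0 := by
    have := rho_apply0 g z x
    rw [hfix, hg, one_mul] at this
    exact this.symm
  have h2 : z.re = 1 := by
    have a0 := congrArg (fun q : ℍ[ℝ] => q.re) h0
    have a1 := congrArg (fun q : ℍ[ℝ] => q.imI) h0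
    have a2 := congrArg (fun q : ℍ[ℝ] => q.imJ) h0
    have a3 := congrArg (fun q : ℍ[ℝ] => q.imK) h0
    simp only [re_sub, imI_sub, imJ_sub, imK_sub, re_smul, imI_smul, imJ_smul, imK_smul,
      smul_eq_mul] at a0 a1 a2 a3
    linear_combination (1 - z.re) * h.k0 + (x 1).imI * a0 - (x 1).re * a1 - (x 1).imK * a2
      + (x 1).imJ * a3
  have h3 : z.im = 0 := by
    have := cx_sq_one_of_norm hz
    rw [h2] at this
    nlinarith
  have h4 : z = 1 := Complex.ext h2 h3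
  rw [hg, h4, rho_one]

/-- Components of the moment map of the flavour group. -/
def fl (a b : ℍ[ℝ]) : ℝ := (a * ⟨0, 1, 0, 0⟩ * star b).re

theorem fl_mul {g : ℍ[ℝ]} (hg : ‖g‖ = 1) (a b : ℍ[ℝ]) : fl (g * a) (g * b) = fl a b := by
  have := re_conj_unit hg (a * ⟨0, 1, 0, 0⟩ * star b)
  rw [fl, fl, ← this, star_mul]
  simp only [mul_assoc]

theorem fl_eq (a b : ℍ[ℝ]) :
    fl a b = a.re * b.imI - a.imI * b.re - (a.imJ * b.imK - a.imK * b.imJ) := by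
  simp only [fl, re_mul, imI_mul, imJ_mul, imK_mul, re_star, imI_star, imJ_star, imK_star]
  ring

/-- The self-dual part of the flavour moment map. -/
def Phi (x : V6) : ℂ × ℝ :=
  (⟨-(fl (x 2) (x 5) + fl (x 3) (x 4)), -(fl (x 2) (x 4) - fl (x 3) (x 5))⟩,
    -(fl (x 2) (x 3) + fl (x 4) (x 5)))

theorem Phi_rho {g : ℍ[ℝ]} (hg : ‖g‖ = 1) (z : ℂ) (x : V6) : Phi (rho g z x) = Phi x := by
  simp only [Phi, rho_apply2, rho_apply3, rho_apply4, rho_apply5, fl_mul hg]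

theorem continuous_coord (n : Fin 6) : Continuous fun x : V6 => x n := (evc n).continuous

theorem continuous_fl (m n : Fin 6) : Continuous fun x : V6 => fl (x m) (x n) :=
  Quaternion.continuous_re.comp (((continuous_coord m).mul continuous_const).mul
    (starL4.continuous.comp (continuous_coord n)))

theorem continuous_cx {X : Type} [TopologicalSpace X] {f g : X → ℝ} (hf : Continuous f)
    (hg : Continuous g) : Continuous fun x => (⟨f x, g x⟩ : ℂ) :=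
  Complex.equivRealProdCLM.symm.continuous.comp (hf.prodMk hg)

theorem continuous_Phi : Continuous Phi :=
  (continuous_cx ((continuous_fl 2 5).add (continuous_fl 3 4)).neg
    ((continuous_fl 2 4).sub (continuous_fl 3 5)).neg).prodMk
    ((continuous_fl 2 3).add (continuous_fl 4 5)).neg

theorem wedge_sq (p2 p3 p4 p5 q2 q3 q4 q5 : ℝ) :
    (p2 ^ 2 + p3 ^ 2 + p4 ^ 2 + p5 ^ 2) * (q2 ^ 2 + q3 ^ 2 + q4 ^ 2 + q5 ^ 2)
      - (p2 * q2 + p3 * q3 + p4 * q4 + p5 * q5) ^ 2 =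
      (p2 * q5 - q2 * p5 + (p3 * q4 - q3 * p4)) ^ 2 + (p2 * q4 - q2 * p4 - (p3 * q5 - q3 * p5)) ^ 2
      + (p2 * q3 - q2 * p3 + (p4 * q5 - q4 * p5)) ^ 2 := by
  ring

theorem no_solution {ρ s t r P : ℝ} (rt : ρ * t = 1) (hP : 0 ≤ P) (hr : r = ρ ^ 2 + s ^ 2 + P)
    (e4 : (r - ρ ^ 2 - s ^ 2) * (r - t ^ 2) - (-(s * t)) ^ 2 = r * r - 0 ^ 2) : False := by
  have e5 : r * (ρ ^ 2 + s ^ 2 + t ^ 2) = 1 := by
    linear_combination (-1 : ℝ) * e4 + (ρ * t + 1) * rt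
  have hρ : 0 < ρ ^ 2 := by
    have : ρ ≠ 0 := left_ne_zero_of_mul_eq_one rt
    positivity
  have e6 : ρ ^ 2 ≤ r := by linarith [sq_nonneg s]
  have e7 : ρ ^ 2 * (ρ ^ 2 + s ^ 2 + t ^ 2) ≤ r * (ρ ^ 2 + s ^ 2 + t ^ 2) :=
    mul_le_mul_of_nonneg_right e6 (by positivity)
  have e8 : ρ ^ 2 * t ^ 2 = 1 := by linear_combination (ρ * t + 1) * rt
  nlinarith [mul_pos hρ hρ, mul_nonneg hρ.le (sq_nonneg s)]

theorem no_solution' {ρ s t p2 p3 p4 p5 q2 q3 q4 q5 u2 u3 u4 u5 v2 v3 v4 v5 : ℝ} (rt : ρ * t = 1)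
    (g01 : s * t + p2 * q2 + p3 * q3 + p4 * q4 + p5 * q5 = 0)
    (g23 : u2 * v2 + u3 * v3 + u4 * v4 + u5 * v5 = 0)
    (d1 : t ^ 2 + q2 ^ 2 + q3 ^ 2 + q4 ^ 2 + q5 ^ 2 =
      ρ ^ 2 + s ^ 2 + p2 ^ 2 + p3 ^ 2 + p4 ^ 2 + p5 ^ 2)
    (d2 : u2 ^ 2 + u3 ^ 2 + u4 ^ 2 + u5 ^ 2 = ρ ^ 2 + s ^ 2 + p2 ^ 2 + p3 ^ 2 + p4 ^ 2 + p5 ^ 2)
    (d3 : v2 ^ 2 + v3 ^ 2 + v4 ^ 2 + v5 ^ 2 = ρ ^ 2 + s ^ 2 + p2 ^ 2 + p3 ^ 2 + p4 ^ 2 + p5 ^ 2)
    (e1 : p2 * q5 - q2 * p5 + (p3 * q4 - q3 * p4) = u2 * v5 - v2 * u5 + (u3 * v4 - v3 * u4))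
    (e2 : p2 * q4 - q2 * p4 - (p3 * q5 - q3 * p5) = u2 * v4 - v2 * u4 - (u3 * v5 - v3 * u5))
    (e3 : p2 * q3 - q2 * p3 + (p4 * q5 - q4 * p5) = u2 * v3 - v2 * u3 + (u4 * v5 - v4 * u5)) :
    False := by
  obtain ⟨r, hr⟩ : ∃ r, r = ρ ^ 2 + s ^ 2 + (p2 ^ 2 + p3 ^ 2 + p4 ^ 2 + p5 ^ 2) := ⟨_, rfl⟩
  have e4 := wedge_sq p2 p3 p4 p5 q2 q3 q4 q5
  rw [e1, e2, e3, ← wedge_sq] at e4
  have b1 : p2 ^ 2 + p3 ^ 2 + p4 ^ 2 + p5 ^ 2 = r - ρ ^ 2 - s ^ 2 := by linear_combination -hr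
  have b2 : q2 ^ 2 + q3 ^ 2 + q4 ^ 2 + q5 ^ 2 = r - t ^ 2 := by linear_combination d1 - hr
  have b3 : p2 * q2 + p3 * q3 + p4 * q4 + p5 * q5 = -(s * t) := by linear_combination g01
  have b4 : u2 ^ 2 + u3 ^ 2 + u4 ^ 2 + u5 ^ 2 = r := by linear_combination d2 - hr
  have b5 : v2 ^ 2 + v3 ^ 2 + v4 ^ 2 + v5 ^ 2 = r := by linear_combination d3 - hr
  rw [b1, b2, b3, b4, b5, g23] at e4
  exact no_solution rt (by positivity) hr e4

theorem Lv.Phi_ne {x : V6} (h : Lv x) : Phi x ≠ 0 := by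
  obtain ⟨g, hg, hn⟩ := h.exists_nf
  have hy := h.rho hg (z := 1) (by simp)
  rw [← Phi_rho hg 1]
  generalize C.rho g 1 x = y at hn hy
  intro h0
  have f1 : -(fl (y 2) (y 5) + fl (y 3) (y 4)) = 0 := congrArg (fun p : ℂ × ℝ => p.1.re) h0
  have f2 : -(fl (y 2) (y 4) - fl (y 3) (y 5)) = 0 := congrArg (fun p : ℂ × ℝ => p.1.im) h0
  have f3 : -(fl (y 2) (y 3) + fl (y 4) (y 5)) = 0 := congrArg (fun p : ℂ × ℝ => p.2) h0
  obtain ⟨g01, -, -, -, -, g23, d1, d2, d3, -, -, -⟩ := hy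
  obtain ⟨i0, j0, k0, j1, k1, rt⟩ := hn
  simp only [Fin.sum_univ_six, i0, j0, k0, j1, k1, fl_eq] at g01 g23 d1 d2 d3 f1 f2 f3
  exact no_solution' (s := (y 1).re) (p2 := (y 2).re) (p3 := (y 3).re) (p4 := (y 4).re)
    (p5 := (y 5).re) (q2 := (y 2).imI) (q3 := (y 3).imI) (q4 := (y 4).imI) (q5 := (y 5).imI)
    (u2 := (y 2).imJ) (u3 := (y 3).imJ) (u4 := (y 4).imJ) (u5 := (y 5).imJ)
    (v2 := (y 2).imK) (v3 := (y 3).imK) (v4 := (y 4).imK) (v5 := (y 5).imK) rt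
    (by linear_combination g01) (by linear_combination g23) (by linear_combination d1)
    (by linear_combination d2) (by linear_combination d3) (by linear_combination -f1)
    (by linear_combination -f2) (by linear_combination -f3)

end

end Pool.Agent.Lib.MP_146573_gt.C
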