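import Pool.Agent.Lib.MP_146573_gt.C.Ops

open scoped RealInnerProductSpace

namespace Pool.Agent.Lib.MP_146573_gt.C

noncomputable section

/-- Parametrisation of the Lie algebra by a quaternion. -/
def phi : Quaternion ℝ →ₗ[ℝ] (V6 →L[ℝ] V6) where
  toFun p := op p.im (p.re : Quaternion ℝ) p.im
  map_add' p q := by rw [op_add]; simp
  map_smul' c p := by
    rw [RingHom.id_apply, op_smul]
    congr 1
    · ext <;> simp
    · ext <;> simp
    · ext <;> simp

theorem phi_apply (p : Quaternion ℝ) : phi p = op p.im (p.re : Quaternion ℝ) p.im := rfl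

/-- First basis vector. -/
def e0 : V6 := WithLp.toLp 2 ![1, 0, 0, 0, 0, 0]

/-- Third basis vector. -/
def e2 : V6 := WithLp.toLp 2 ![0, 0, 1, 0, 0, 0]

/-- A left inverse of `phi`. -/
def psi : (V6 →L[ℝ] V6) →ₗ[ℝ] Quaternion ℝ where
  toFun A := A e2 2 + A e0 1
  map_add' A C := by simp only [add_apply, PiLp.add_apply]; abel
  map_smul' c A := by simp [smul_add]

theorem psi_op (a b g : Quaternion ℝ) : psi (op a b g) = g + b := by
  show op a b g e2 2 + op a b g e0 1 = _
  simp [e0, e2]

theorem psi_phi (p : Quaternion ℝ) : psi (phi p) = p := by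
  rw [phi_apply, psi_op]
  ext <;> simp

/-- Left multiplication on all six coordinates. -/
def lHom : Quaternion ℝ →+* (V6 →L[ℝ] V6) where
  toFun g := op g 0 g
  map_one' := op_one
  map_mul' g h := by rw [op_mul]; simp
  map_zero' := op_zero
  map_add' g h := by rw [op_add]; simp

/-- Rotation-dilation on the first two coordinates and dilation on the last four. -/
def rHom : ℂ × ℝ →+* (V6 →L[ℝ] V6) where
  toFun p := op (p.1.re : Quaternion ℝ) (p.1.im : Quaternion ℝ) (p.2 : Quaternion ℝ)
  map_one' := by simpa using op_one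
  map_mul' p q := by rw [op_mul]; simp
  map_zero' := by simpa using op_zero
  map_add' p q := by rw [op_add]; simp

theorem continuous_lHom : Continuous lHom :=
  continuous_op continuous_id continuous_const continuous_id

theorem continuous_rHom : Continuous rHom := by
  apply continuous_op
  · exact Quaternion.continuous_coe.comp (by fun_prop)
  · exact Quaternion.continuous_coe.comp (by fun_prop)
  · exact Quaternion.continuous_coe.comp (by fun_prop)

theorem lHom_apply (g : Quaternion ℝ) : lHom g = op g 0 g := rfl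

theorem rHom_apply (z : ℂ) (r : ℝ) :
    rHom (z, r) = op (z.re : Quaternion ℝ) (z.im : Quaternion ℝ) (r : Quaternion ℝ) := rfl

theorem lHom_mul_rHom (g : Quaternion ℝ) (z : ℂ) : lHom g * rHom (z, 1) = rho g z := by
  rw [lHom_apply, rHom_apply, op_mul, rho]
  congr 1
  · simp [Quaternion.mul_coe_eq_smul]
  · simp [Quaternion.mul_coe_eq_smul]
  · simp

theorem commute_lr (g : Quaternion ℝ) (z : ℂ) (r : ℝ) : Commute (lHom g) (rHom (z, r)) := by
  show lHom g * rHom (z, r) = rHom (z, r) * lHom g
  rw [lHom_apply, rHom_apply, op_mul, op_mul]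
  congr 1
  · simp [Quaternion.mul_coe_eq_smul, Quaternion.coe_mul_eq_smul]
  · simp [Quaternion.mul_coe_eq_smul, Quaternion.coe_mul_eq_smul]
  · simp [Quaternion.mul_coe_eq_smul, Quaternion.coe_mul_eq_smul]

theorem phi_eq (p : Quaternion ℝ) : phi p = lHom p.im + rHom ((p.re : ℂ) * Complex.I, 0) := by
  rw [phi_apply, lHom_apply, rHom_apply, op_add]
  simp

theorem exp_phi (p : Quaternion ℝ) : opExp (phi p) =
    rho (NormedSpace.exp p.im) (Complex.exp ((p.re : ℂ) * Complex.I)) := by
  have h1 : opExp (lHom p.im + rHom ((p.re : ℂ) * Complex.I, 0)) =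
      opExp (lHom p.im) * opExp (rHom ((p.re : ℂ) * Complex.I, 0)) :=
    opExp_add _ _ (commute_lr _ _ _)
  have h2 : lHom (NormedSpace.exp p.im) = opExp (lHom p.im) :=
    opExp_map lHom continuous_lHom _
  have h3 : rHom (NormedSpace.exp ((p.re : ℂ) * Complex.I, (0 : ℝ))) =
      opExp (rHom ((p.re : ℂ) * Complex.I, 0)) :=
    opExp_map rHom continuous_rHom _
  have h4 : NormedSpace.exp ((p.re : ℂ) * Complex.I, (0 : ℝ)) =
      (Complex.exp ((p.re : ℂ) * Complex.I), (1 : ℝ)) := by
    apply Prod.ext
    · rw [Prod.fst_exp, Complex.exp_eq_exp_ℂ]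
    · rw [Prod.snd_exp]
      simp
  rw [phi_eq, h1, ← h2, ← h3, h4, lHom_mul_rHom]

theorem exp_phi_mem (p : Quaternion ℝ) (t : ℝ) :
    ∃ u ∈ grp, (u : V6 →L[ℝ] V6) = opExp (t • phi p) := by
  rw [← map_smul, exp_phi]
  have hg : ‖NormedSpace.exp (t • p).im‖ = 1 := by simp
  have hz : ‖Complex.exp (((t • p).re : ℂ) * Complex.I)‖ = 1 := Complex.norm_exp_ofReal_mul_I _
  exact ⟨rhoU hg hz, ⟨_, _, hg, hz, rfl⟩, rfl⟩

/-- A coordinate of a vector. -/
def evc (n : Fin 6) : V6 →L[ℝ] Quaternion ℝ :=
  LinearMap.toContinuousLinearMap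
    { toFun := fun x => x n
      map_add' := fun A C => by simp
      map_smul' := fun c A => by simp }

theorem hasDerivAt_evc (A : V6 →L[ℝ] V6) (x : V6) (n : Fin 6) :
    HasDerivAt (fun t : ℝ => (opExp (t • A)) x n) (A x n) 0 :=
  (evc n).hasFDerivAt.comp_hasDerivAt (0 : ℝ) (hasDerivAt_opExp A x)

theorem mem_range_phi (A : V6 →L[ℝ] V6)
    (h : ∀ t : ℝ, ∃ u ∈ grp, (u : V6 →L[ℝ] V6) = opExp (t • A)) :
    A ∈ LinearMap.range phi := by
  choose u hu hu' using h
  choose g z hg hz hgz using hu
  have hE : ∀ t : ℝ, opExp (t • A) = rho (g t) (z t) := fun t => (hu' t).symm.trans (hgz t)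
  have ha : HasDerivAt (fun t => (z t).re • g t) (A e0 0) 0 := by
    have := hasDerivAt_evc A e0 0
    simpa [hE, rho, e0] using this
  have hb : HasDerivAt (fun t => (z t).im • g t) (A e0 1) 0 := by
    have := hasDerivAt_evc A e0 1
    simpa [hE, rho, e0] using this
  have hgd : HasDerivAt g (A e2 2) 0 := by
    have := hasDerivAt_evc A e2 2
    simpa [hE, rho, e2] using this
  have hop : A = op (A e0 0) (A e0 1) (A e2 2) := by
    ext1 x
    apply V6_ext
    · have h1 := hasDerivAt_evc A x 0
      simp only [hE, rho, op_apply0] at h1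
      exact h1.unique ((ha.mul_const _).sub (hb.mul_const _))
    · have h1 := hasDerivAt_evc A x 1
      simp only [hE, rho, op_apply1] at h1
      exact h1.unique ((hb.mul_const _).add (ha.mul_const _))
    · have h1 := hasDerivAt_evc A x 2
      simp only [hE, rho, op_apply2] at h1
      exact h1.unique (hgd.mul_const _)
    · have h1 := hasDerivAt_evc A x 3
      simp only [hE, rho, op_apply3] at h1
      exact h1.unique (hgd.mul_const _)
    · have h1 := hasDerivAt_evc A x 4
      simp only [hE, rho, op_apply4] at h1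
      exact h1.unique (hgd.mul_const _)
    · have h1 := hasDerivAt_evc A x 5
      simp only [hE, rho, op_apply5] at h1
      exact h1.unique (hgd.mul_const _)
  have h0 : rho (g 0) (z 0) = 1 := by
    have e : (0 : ℝ) • A = 0 := by ext1 x; simp
    rw [← hE 0, e]
    exact opExp_zero
  have hg0 : g 0 = 1 := by
    have := congrArg (fun T : V6 →L[ℝ] V6 => T e2 2) h0
    simpa [rho, e2] using this
  have hz0 : (z 0).re = 1 := by
    have := congrArg (fun T : V6 →L[ℝ] V6 => (T e0 0)) h0
    simp only [rho, e0, hg0, op_apply0, one_apply_eq_self, Matrix.cons_val_zero,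
      Matrix.cons_val_one, mul_one, mul_zero, sub_zero] at this
    rw [smul_one_quat] at this
    exact Quaternion.coe_injective (this.trans Quaternion.coe_one.symm)
  have hz1 : (z 0).im = 0 := by
    have := congrArg (fun T : V6 →L[ℝ] V6 => (T e0 1)) h0
    simp only [rho, e0, hg0, op_apply1, one_apply_eq_self, Matrix.cons_val_zero,
      Matrix.cons_val_one, mul_one, mul_zero, add_zero] at this
    rw [smul_one_quat] at this
    exact Quaternion.coe_injective (this.trans Quaternion.coe_zero.symm)
  have hsd : HasDerivAt (fun t => star (g t)) (star (A e2 2)) 0 :=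
    starL4.hasFDerivAt.comp_hasDerivAt (0 : ℝ) hgd
  -- the unit condition on `g`
  have c1 : A e2 2 + star (A e2 2) = 0 := by
    have h1 := hgd.mul hsd
    have h2 : (g * fun t => star (g t)) = fun _ => 1 := funext fun t => quat_mul_star (hg t)
    rw [h2] at h1
    have := h1.unique (hasDerivAt_const _ _)
    simpa [hg0] using this
  -- real and imaginary parts of `z`
  have hre : HasDerivAt (fun t => ((z t).re : Quaternion ℝ)) (A e0 0 + star (A e2 2)) 0 := by
    have h1 := ha.mul hsd
    have h2 : ((fun t => (z t).re • g t) * fun t => star (g t)) =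
        fun t => ((z t).re : Quaternion ℝ) := by
      funext t
      simp only [Pi.mul_apply, smul_mul_assoc, quat_mul_star (hg t)]
      exact smul_one_quat _
    rw [h2] at h1
    simpa [hg0, hz0] using h1
  have him : HasDerivAt (fun t => ((z t).im : Quaternion ℝ)) (A e0 1) 0 := by
    have h1 := hb.mul hsd
    have h2 : ((fun t => (z t).im • g t) * fun t => star (g t)) =
        fun t => ((z t).im : Quaternion ℝ) := by
      funext t
      simp only [Pi.mul_apply, smul_mul_assoc, quat_mul_star (hg t)]
      exact smul_one_quat _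
    rw [h2] at h1
    simpa [hg0, hz1] using h1
  have c2 : (A e0 1).im = 0 := by
    have h1 := imL.hasFDerivAt.comp_hasDerivAt (0 : ℝ) him
    have h2 : (imL ∘ fun t => ((z t).im : Quaternion ℝ)) = fun _ => 0 := by
      funext t
      show (((z t).im : Quaternion ℝ)).im = 0
      simp
    rw [h2] at h1
    exact h1.unique (hasDerivAt_const _ _)
  have c3 : A e0 0 + star (A e2 2) = 0 := by
    have h1 := (hre.mul hre).add (him.mul him)
    have h2 : (((fun t => ((z t).re : Quaternion ℝ)) * fun t => ((z t).re : Quaternion ℝ)) +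
        (fun t => ((z t).im : Quaternion ℝ)) * fun t => ((z t).im : Quaternion ℝ)) =
        fun _ => 1 := by
      funext t
      have h3 : (z t).re * (z t).re + (z t).im * (z t).im = 1 := by
        rw [← Complex.normSq_apply, Complex.normSq_eq_norm_sq, hz t]
        norm_num
      simp only [Pi.add_apply, Pi.mul_apply]
      rw [← Quaternion.coe_mul, ← Quaternion.coe_mul, ← Quaternion.coe_add, h3]
      rfl
    rw [h2] at h1
    have h4 := h1.unique (hasDerivAt_const _ _)
    simp only [hz0, hz1, Quaternion.coe_one, Quaternion.coe_zero, mul_one, one_mul, mul_zero,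
      zero_mul, add_zero] at h4
    have h5 : (2 : ℝ) • (A e0 0 + star (A e2 2)) = 0 := by rw [two_smul]; exact h4
    exact (smul_eq_zero.mp h5).resolve_left two_ne_zero
  have c4 : (A e2 2).re = 0 := by
    have h1 : (A e2 2 + star (A e2 2)).re = 0 := by rw [c1]; rfl
    rw [Quaternion.re_add, Quaternion.re_star] at h1
    linarith
  have c5 : A e0 0 = A e2 2 := by
    have := c3.trans c1.symm
    exact add_right_cancel this
  refine ⟨A e2 2 + A e0 1, ?_⟩
  have d1 : (A e2 2 + A e0 1).im = A e2 2 := by
    rw [Quaternion.im_add, c2, add_zero]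
    ext <;> simp [c4]
  have d2 : (((A e2 2 + A e0 1).re : ℝ) : Quaternion ℝ) = A e0 1 := by
    have := Quaternion.re_add_im (A e0 1)
    rw [c2, add_zero] at this
    rw [Quaternion.re_add, c4, zero_add, this]
  rw [phi_apply, d1, d2]
  conv_rhs => rw [hop, c5]

end

end Pool.Agent.Lib.MP_146573_gt.C
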