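import Pool.Agent.Lib.MP_146573_gt.Defs
import Pool.Agent.Lib.MP_d476f3_gt.Wind

/-!
A criterion for the restriction map on rational singular cohomology in degree two to be
non-surjective.
-/

open Set Finsupp

namespace Pool.Agent.Lib.MP_146573_gt.C

noncomputable section

open Pool.Agent.Lib.MP_d476f3_gt hiding face

variable {Y' Y : Type} [TopologicalSpace Y'] [TopologicalSpace Y]

/-- Evaluation of a cochain on a chain. -/
def ev {n : ℕ} (ψ : Simplex Y n → ℚ) : Chain n Y →ₗ[ℤ] ℚ := linearCombination ℤ ψ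

theorem ev_single {n : ℕ} (ψ : Simplex Y n → ℚ) (σ : Simplex Y n) : ev ψ (single σ 1) = ψ σ := by
  simp [ev]

theorem ev_cobdry {n : ℕ} (ψ : Simplex Y n → ℚ) (c : Chain (n + 1) Y) :
    ev (cobdry ψ) c = ev ψ (bd n Y c) := by
  refine lin_ext (f := ev (cobdry ψ)) (g := ev ψ ∘ₗ bd n Y) (fun σ => ?_) c
  rw [LinearMap.comp_apply, ev_single, bd_single, map_sum]
  refine Finset.sum_congr rfl fun i _ => ?_
  rw [map_smul, ev_single, zsmul_eq_mul]
  push_cast
  rfl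

theorem ev_pull {n : ℕ} (f : C(Y', Y)) (ψ : Simplex Y n → ℚ) (c : Chain n Y') :
    ev (pullCochain f ψ) c = ev ψ (cmap f n c) := by
  refine lin_ext (f := ev (pullCochain f ψ)) (g := ev ψ ∘ₗ cmap f n) (fun σ => ?_) c
  rw [LinearMap.comp_apply, ev_single, cmap_single, ev_single]
  rfl

theorem ev_sub {n : ℕ} (φ ψ : Simplex Y n → ℚ) (c : Chain n Y) :
    ev (φ - ψ) c = ev φ c - ev ψ c := by
  refine lin_ext (f := ev (φ - ψ)) (g := ev φ - ev ψ) (fun σ => ?_) c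
  rw [LinearMap.sub_apply, ev_single, ev_single, ev_single]
  rfl

theorem ev_zero {n : ℕ} (c : Chain n Y) : ev (0 : Simplex Y n → ℚ) c = 0 := by
  refine lin_ext (f := ev (0 : Simplex Y n → ℚ)) (g := 0) (fun σ => ?_) c
  rw [ev_single]
  rfl

/-- Evaluation of a cohomology class on a cycle. -/
def evC {n : ℕ} (z : Chain (n + 1) Y) (hz : bd n Y z = 0) : SingCoh Y (n + 1) → ℚ :=
  Quot.lift (fun φ : Cocycle Y (n + 1) => ev φ.1 z) (by
    rintro φ ψ ⟨χ, hχ⟩
    have h := ev_cobdry χ z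
    rw [hχ, ev_sub, hz, map_zero] at h
    exact sub_eq_zero.mp h)

/-- The standard loop on the circle. -/
def loop : C(Δ 1, Circle) :=
  ⟨fun x => Circle.exp (x.1 1 * (2 * Real.pi)), Circle.exp.continuous.comp
    (((continuous_apply 1).comp continuous_subtype_val).mul continuous_const)⟩

theorem bd_loop : bd 0 Circle (single loop 1) = 0 := by
  rw [bd_one]
  have h1 : loop (vert 1 1) = 1 := by simp [loop, vert]
  have h0 : loop (vert 1 0) = 1 := by simp [loop, vert]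
  rw [h1, h0, sub_self]

theorem wind_loop : windC.ω (push (fun w : Circle => (w : ℂ)) 1 (single loop 1)) ≠ 0 := by
  have hc : Continuous fun w : Circle => (w : ℂ) := by fun_prop
  have hv : push (fun w : Circle => (w : ℂ)) 1 (single loop 1) ∈ Cy 0 ({0}ᶜ : Set ℂ) :=
    push_Cy (A := univ) hc.continuousOn (fun w _ => w.coe_ne_zero) ⟨mem_Ch_univ _, bd_loop⟩
  have e : push (fun w : Circle => (w : ℂ)) 1 (single loop 1) =
      push Complex.exp 1 (single (seg (2 * Real.pi * Complex.I)) 1) := by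
    rw [push_single (hc.comp loop.continuous),
      push_single (Complex.continuous_exp.comp (seg _).continuous)]
    congr 1
    ext x
    simp [loop, seg, mul_assoc]
  have h := (br_up hv).2
  intro h0
  have h1 : br (bd 0 ℂ (up 1 (push (fun w : Circle => (w : ℂ)) 1 (single loop 1)))) = 0 := h0
  rw [h1, e, ev0_up, bd_seg] at h
  simp [ev0] at h

theorem exists_fill (H : C(Circle × Δ 1, Y)) (p : Y) (h : ∀ w, H (w, vert 1 1) = p) :
    ∃ c ∈ Ch 2 (range H), bd 1 Y c = push (fun w => H (w, vert 1 0)) 1 (single loop 1) := by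
  have h1 := bd_Pm H 0 (single loop 1)
  rw [bd_loop, map_zero, sub_zero, ← push_eq_cmap, ← push_eq_cmap] at h1
  have h2 := bd_mem_Bd (Pm_mem H (A := univ) (B := range H) (fun x _ t => ⟨_, rfl⟩)
    (mem_Ch_univ (single loop 1)))
  have e1 : (H.comp (lev Circle 1) : Circle → Y) = fun _ => p := funext h
  have e0 : (H.comp (lev Circle 0) : Circle → Y) = fun w => H (w, vert 1 0) := rfl
  rw [h1, e1, e0] at h2
  have h3 : push (fun _ : Circle => p) 1 (single loop 1) ∈ Bd 1 (range H) :=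
    Bd_mono (singleton_subset_iff.mpr (mem_range.mpr ⟨_, h 1⟩)) (push_const_mem p bd_loop)
  have h4 := Submodule.sub_mem _ h3 h2
  rw [sub_sub_cancel] at h4
  exact h4

theorem not_surjective_two (f : C(Y', Y)) (Φ : C(Y', ℂ × ℝ)) (hΦ : ∀ y, Φ y ≠ 0) (s : C(Y', Y'))
    (K : C(Y' × Δ 1, Y)) (hK0 : ∀ y, K (y, vert 1 0) = f y) (hK1 : ∀ y, K (y, vert 1 1) = f (s y))
    (H1 H2 : C(Circle × Δ 1, Y')) (h12 : ∀ w, H1 (w, vert 1 0) = H2 (w, vert 1 0))
    (p1 p2 : Y') (h1 : ∀ w, H1 (w, vert 1 1) = p1) (h2 : ∀ w, H2 (w, vert 1 1) = p2)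
    (hU : ∀ q, Φ (H1 q) ∈ coray ℂ 1) (hV : ∀ q, Φ (H2 q) ∈ coray ℂ (-1))
    (hw : ∀ w, (Φ (H1 (w, vert 1 0))).1 = w) (q0 : ℂ × ℝ)
    (hs1 : ∀ q, Φ (s (H1 q)) = q0) (hs2 : ∀ q, Φ (s (H2 q)) = q0) :
    ¬ Function.Surjective (pullback f 2) := by
  intro hsur
  obtain ⟨c1, hc1, e1⟩ := exists_fill H1 p1 h1
  obtain ⟨c2, hc2, e2⟩ := exists_fill H2 p2 h2
  have hz : bd 1 Y' (c1 - c2) = 0 := by
    rw [map_sub, e1, e2, funext h12, sub_self]
  let W : Wind (ℂ × ℝ) 1 _ := windC.susp (fun P => by fun_prop) fun P x hx => pow_ne_zero P hx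
  have hΦc : ContinuousOn Φ univ := Φ.continuous.continuousOn
  have hΦm : MapsTo Φ univ {0}ᶜ := fun y _ => hΦ y
  have hg0 : MapsTo (Prod.fst : ℂ × ℝ → ℂ) (coray ℂ 1 ∩ coray ℂ (-1)) {0}ᶜ := by
    rw [coray_inter]
    exact fun x hx => hx
  have a1 : W.ω (push Φ 2 (c1 - c2)) ≠ 0 := by
    have b1 : push Φ 2 c1 ∈ Ch 2 (coray ℂ 1) :=
      push_mem Φ.continuous.continuousOn (by rintro _ ⟨q, rfl⟩; exact hU q) hc1
    have b2 : push Φ 2 (-c2) ∈ Ch 2 (coray ℂ (-1)) :=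
      push_mem Φ.continuous.continuousOn (by rintro _ ⟨q, rfl⟩; exact hV q)
        (Submodule.neg_mem _ hc2)
    have b3 := windC.deg_eq (isOpen_coray 1) (isOpen_coray (-1)) continuousOn_fst hg0
      (push_Cy hΦc hΦm (w := c1 - c2) ⟨mem_Ch_univ _, hz⟩).2 b1 b2
      (by rw [← map_add, ← sub_eq_add_neg, sub_self]; exact Submodule.zero_mem _)
    have b4 : Continuous fun w : Circle => H1 (w, vert 1 0) := by fun_prop
    rw [bd_push hΦc (mem_Ch_univ _), e1, push_push' b4 Φ.continuous,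
      push_push' (Φ.continuous.comp b4) continuous_fst] at b3
    have b5 : (Prod.fst ∘ Φ ∘ fun w : Circle => H1 (w, vert 1 0)) = fun w : Circle => (w : ℂ) :=
      funext hw
    rw [b5] at b3
    exact fun h => wind_loop (b3.symm.trans h)
  have hz' : bd 1 Y' (push s 2 (c1 - c2)) = 0 := by
    rw [bd_push s.continuous.continuousOn (mem_Ch_univ _), hz, map_zero]
  have a2 : W.ω (push Φ 2 (push s 2 (c1 - c2))) = 0 := by
    rw [W.ker _ (push_Cy hΦc hΦm ⟨mem_Ch_univ _, hz'⟩)]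
    have hq : q0 ≠ 0 := hs1 (1, vert 1 0) ▸ hΦ _
    refine Bd_mono (A := {q0}) (singleton_subset_iff.mpr hq)
      (acyc_of_convex (convex_singleton q0) 1 _ ?_ (push_Cy hΦc hΦm ⟨mem_Ch_univ _, hz'⟩).2)
    rw [push_push' s.continuous Φ.continuous, map_sub]
    exact Submodule.sub_mem _
      (push_mem (Φ.continuous.comp s.continuous).continuousOn
        (by rintro _ ⟨q, rfl⟩; exact hs1 q) hc1)
      (push_mem (Φ.continuous.comp s.continuous).continuousOn
        (by rintro _ ⟨q, rfl⟩; exact hs2 q) hc2)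
  let Ω : Cy 1 (univ : Set Y') →+ ℚ := AddMonoidHom.mk' (fun v => (W.ω (push Φ 2 v.1) : ℚ))
    fun v w => by
      rw [Submodule.coe_add, map_add, W.add _ (push_Cy hΦc hΦm v.2) _ (push_Cy hΦc hΦm w.2)]
      push_cast
      rfl
  obtain ⟨h, hh⟩ := (Module.Baer.of_divisible ℚ).extension_property_addMonoidHom
    (Cy 1 (univ : Set Y')).subtype.toAddMonoidHom Subtype.val_injective Ω
  have hh' : ∀ v, bd 1 Y' v = 0 → h v = (W.ω (push Φ 2 v) : ℚ) := fun v hv =>
    DFunLike.congr_fun hh ⟨v, mem_Ch_univ _, hv⟩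
  let φ : Simplex Y' 2 → ℚ := fun σ => h (single σ 1)
  have hφ : ∀ c, ev φ c = h c := fun c =>
    lin_ext (f := ev φ) (g := h.toIntLinearMap) (fun σ => ev_single _ _) c
  have hco : cobdry φ = 0 := by
    funext σ
    rw [← ev_single (cobdry φ), ev_cobdry, hφ, hh' _ (bd_bd _ _)]
    have : W.ω (push Φ 2 (bd 2 Y' (single σ 1))) = 0 := by
      rw [W.ker _ (push_Cy hΦc hΦm ⟨mem_Ch_univ _, bd_bd _ _⟩)]
      exact push_Bd hΦc hΦm (bd_mem_Bd (mem_Ch_univ _))
    rw [this]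
    rfl
  obtain ⟨c, hc⟩ := hsur (Quot.mk _ ⟨φ, hco⟩)
  obtain ⟨⟨ψ, hψ⟩, rfl⟩ := Quot.exists_rep c
  have d1 : ev (pullCochain f ψ) (c1 - c2) = ev φ (c1 - c2) := congrArg (evC _ hz) hc
  have d2 : ev (pullCochain f ψ) (push s 2 (c1 - c2)) = ev φ (push s 2 (c1 - c2)) :=
    congrArg (evC _ hz') hc
  rw [hφ, hh' _ hz, ev_pull] at d1
  rw [hφ, hh' _ hz', a2, ev_pull, ← push_eq_cmap, push_push' s.continuous f.continuous] at d2
  have d3 := ev_cobdry ψ (Pm K 2 (c1 - c2))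
  rw [hψ, ev_zero, bd_Pm, hz, map_zero, sub_zero, map_sub, ← push_eq_cmap] at d3
  have k1 : (K.comp (lev Y' 1) : Y' → Y) = f ∘ s := funext hK1
  have k0 : K.comp (lev Y' 0) = f := ContinuousMap.ext hK0
  rw [k1, k0, d1, d2] at d3
  apply a1
  have : (W.ω (push Φ 2 (c1 - c2)) : ℚ) = 0 := by simpa using d3
  exact_mod_cast this

end

end Pool.Agent.Lib.MP_146573_gt.C
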