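import Pool.Agent.Lib.MP_146573_gt.C.Flow
import Pool.Agent.Lib.MP_146573_gt.C.Conn
import Pool.Agent.Lib.MP_146573_gt.C.Top

open scoped RealInnerProductSpace
open Quaternion

namespace Pool.Agent.Lib.MP_146573_gt.C

noncomputable section

theorem contDiff_mom (u : ℍ[ℝ]) (c : ℝ) : ContDiff ℝ ⊤ (mom u c) := by
  have hc : ∀ n, ContDiff ℝ ⊤ fun x : V6 => x n := fun n => (evc n).contDiff
  have hs : ∀ n, ContDiff ℝ ⊤ fun x : V6 => star (x n) := fun n =>
    starL4.contDiff.comp (hc n)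
  have hp : ∀ n m, ContDiff ℝ ⊤ fun x : V6 => x n * u * star (x m) := fun n m =>
    ((hc n).mul contDiff_const).mul (hs m)
  have h1 : ContDiff ℝ ⊤ fun x : V6 => (x 0 * u * star (x 1)).re - c :=
    (reL.contDiff.comp (hp 0 1)).sub contDiff_const
  have h2 : ContDiff ℝ ⊤ fun x : V6 => (((x 0 * u * star (x 1)).re - c : ℝ) : ℍ[ℝ]) := by
    have : ContDiff ℝ ⊤ fun x : V6 => ((x 0 * u * star (x 1)).re - c) • (1 : ℍ[ℝ]) :=
      h1.smul contDiff_const
    simpa only [smul_one_quat] using this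
  exact h2.sub (((((((hp 0 0).add (hp 1 1)).add (hp 2 2)).add (hp 3 3)).add (hp 4 4)).add
    (hp 5 5)).const_smul (1 / 2 : ℝ))

theorem contDiff_ff : ContDiff ℝ ⊤ ff := by
  unfold ff
  apply ContDiff.sum
  intro a _
  exact (contDiff_mom _ _).inner ℝ (contDiff_mom _ _)

theorem grp_smul (u : grp) (x : V6) : u • x = (u.1 : V6 →L[ℝ] V6) x := rfl

theorem grp_topGroup : IsTopologicalGroup grp := by
  have : ContinuousMul (V6 →L[ℝ] V6) := continuousMul_op (V := V6)
  infer_instance

theorem grp_continuousSMul : ContinuousSMul grp V6 := ⟨by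
  have h : Continuous fun p : grp × V6 => (p.1.1 : V6 →L[ℝ] V6) :=
    Units.continuous_val.comp (continuous_subtype_val.comp continuous_fst)
  exact Continuous.clm_apply (𝕜 := ℝ) (E := V6) (F := V6) h continuous_snd⟩

theorem grp_faithful : FaithfulSMul grp V6 := ⟨fun {u v} h => by
  apply Subtype.ext
  apply Units.ext
  ext1 x
  exact h x⟩

theorem phi_injective : Function.Injective phi := fun p q h => by
  rw [← psi_phi p, h, psi_phi]

theorem rho_phi_conj_apply {g : ℍ[ℝ]} (z : ℂ) (hg : ‖g‖ = 1) (p : ℍ[ℝ]) (y : V6) :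
    phi (g * p * star g) (rho g z y) = rho g z (phi p y) :=
  congrArg (fun T : V6 →L[ℝ] V6 => T y) (rho_phi_conj (z := z) hg p)

/-- The counterexample. -/
def model : HyperHam grp V6 ℍ[ℝ] where
  cx a := rmul (uu a)
  iota p := phi p
  mu a := mom (uu a) (cc a)
  isHK := by
    refine ⟨fun a => (rmul (uu a)).toLinearMap.isLinear, fun a x => ?_, fun x => ?_,
      fun a u v => inner_rmul (uu_norm a) u v⟩
    · have h : rmul (uu a) * rmul (uu a) = -1 := by rw [rmul_mul, uu_sq, rmul_neg_one]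
      exact congrArg (fun T : V6 →L[ℝ] V6 => T x) h
    · have h : rmul (uu 0) * rmul (uu 1) = rmul (uu 2) := by rw [rmul_mul, uu_mul]
      exact congrArg (fun T : V6 →L[ℝ] V6 => T x) h
  preserves := by
    refine ⟨fun u => (u.1 : V6 →L[ℝ] V6).toLinearMap.isLinear, ?_, ?_⟩
    · rintro ⟨u, g, z, hg, hz, h⟩ x y
      rw [grp_smul, grp_smul, h]
      exact inner_rho hg hz x y
    · rintro ⟨u, g, z, hg, hz, h⟩ a x
      rw [grp_smul, grp_smul, h]
      exact congrArg (fun T : V6 →L[ℝ] V6 => T x) (op_rmul _ _ _ (uu a))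
  isLieAlg := by
    refine ⟨fun p => (phi p).toLinearMap.isLinear, fun x => ⟨fun p q => ?_, fun c p => ?_⟩,
      fun p q h => phi_injective (DFunLike.coe_injective h), fun A => ⟨?_, fun h => ?_⟩, ?_⟩
    · exact congrArg (fun T : V6 →L[ℝ] V6 => T x) (map_add phi p q)
    · exact congrArg (fun T : V6 →L[ℝ] V6 => T x) (map_smul phi c p)
    · rintro ⟨p, hp⟩ t
      have hA : phi p = A := DFunLike.coe_injective hp
      obtain ⟨u, hu, h⟩ := exp_phi_mem p t
      refine ⟨⟨u, hu⟩, fun x => ?_⟩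
      rw [grp_smul, h, hA]
      rfl
    · obtain ⟨p, hp⟩ := mem_range_phi A (fun t => by
        obtain ⟨u, hu⟩ := h t
        exact ⟨u.1, u.2, ContinuousLinearMap.ext hu⟩)
      exact ⟨p, congrArg DFunLike.coe hp⟩
    · rintro ⟨u, g, z, hg, hz, h⟩ p p' hp
      have h1 : phi p' * rho g z = rho g z * phi p := by
        ext1 x
        have := hp x
        rw [grp_smul, grp_smul, h] at this
        exact this
      have h2 : phi p' = phi (g * p * star g) := by
        rw [phi_conj hg hz, ← h1, mul_assoc, rho_mul_inv hg hz, mul_one]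
      rw [phi_injective h2]
      simp [hg]
  isMoment := by
    refine ⟨fun a p x => ?_, ?_⟩
    · rw [hasGradientAt_iff_hasFDerivAt]
      exact hasFDerivAt_mom (uu_re a) (cc a) p x
    · rintro ⟨u, g, z, hg, hz, h⟩ a x y
      beta_reduce
      rw [grp_smul, grp_smul, grp_smul, h, mom_rho (uu_re a) _ hg hz]
      exact rho_phi_conj_apply z hg (mom (uu a) (cc a) x) y

theorem model_normSq : model.normSq = ff := by
  funext x
  have h : ∑ a, ‖mom (uu a) (cc a) x‖ ^ 2 = ff x := by
    simp only [ff, real_inner_self_eq_norm_sq]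
  exact h

theorem mem_zeroLevel {x : V6} : x ∈ model.zeroLevel ↔ ∀ a, mom (uu a) (cc a) x = 0 := Iff.rfl

theorem model_free (u : grp) (x : V6) (hx : x ∈ model.zeroLevel) (hfix : u • x = x) : u = 1 := by
  obtain ⟨u, g, z, hg, hz, h⟩ := u
  apply Subtype.ext
  apply Units.ext
  rw [grp_smul, h] at hfix
  exact h.trans ((lv_of_mom (mem_zeroLevel.mp hx)).free hz hfix)

theorem mem_zeroLevel_iff {x : V6} : x ∈ model.zeroLevel ↔ Lv x :=
  ⟨fun h => lv_of_mom (mem_zeroLevel.mp h), fun h => mem_zeroLevel.mpr (mom_of_lv h)⟩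

theorem model_connected : IsConnected (model.zeroLevel : Set V6) := by
  have e : (model.zeroLevel : Set V6) = {x | Lv x} := Set.ext fun _ => mem_zeroLevel_iff
  rw [e]
  exact isConnected_lv

theorem finrank_V6 : Module.finrank ℝ V6 = 24 := by
  rw [(WithLp.linearEquiv 2 ℝ (Fin 6 → Quaternion ℝ)).finrank_eq, Module.finrank_pi_fintype]
  simp [Quaternion.finrank_eq_four]

/-- Scaling of the last coordinate. -/
def sc5 (c : ℝ) (x : V6) : V6 := mk6 (x 0) (x 1) (x 2) (x 3) (x 4) (c • x 5)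

theorem sc5_one (x : V6) : sc5 1 x = x := by
  apply V6_ext <;> simp [sc5]

theorem sc5_rho (c : ℝ) (g : ℍ[ℝ]) (z : ℂ) (x : V6) : rho g z (sc5 c x) = sc5 c (rho g z x) := by
  apply V6_ext <;> simp only [sc5, mk6_0, mk6_1, mk6_2, mk6_3, mk6_4, mk6_5, rho_apply0,
    rho_apply1, rho_apply2, rho_apply3, rho_apply4, rho_apply5, mul_smul_comm]

theorem sc5_smul (c : ℝ) (u : grp) (x : V6) : u • sc5 c x = sc5 c (u • x) := by
  obtain ⟨u, g, z, hg, hz, h⟩ := u
  rw [grp_smul, grp_smul, h, sc5_rho]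

theorem continuous_sc5 : Continuous fun p : ℝ × V6 => sc5 p.1 p.2 :=
  continuous_mk6 ((continuous_coord 0).comp continuous_snd)
    ((continuous_coord 1).comp continuous_snd) ((continuous_coord 2).comp continuous_snd)
    ((continuous_coord 3).comp continuous_snd) ((continuous_coord 4).comp continuous_snd)
    (continuous_fst.smul ((continuous_coord 5).comp continuous_snd))

theorem Lv.sc5 {x : V6} (h : Lv x) : Lv (sc5 (-1) x) := by
  obtain ⟨g01, g02, g03, g12, g13, g23, d1, d2, d3, k0, k1, k2⟩ := h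
  simp only [Fin.sum_univ_six] at g01 g02 g03 g12 g13 g23 d1 d2 d3
  refine ⟨?_, ?_, ?_, ?_, ?_, ?_, ?_, ?_, ?_, ?_, ?_, ?_⟩ <;>
    simp only [Fin.sum_univ_six, C.sc5, mk6_0, mk6_1, mk6_2, mk6_3, mk6_4, mk6_5, re_smul,
      imI_smul, imJ_smul, imK_smul, smul_eq_mul] <;> linarith

/-- A three-sphere in the level set. -/
def jj (α β : ℂ) : V6 :=
  mk6 (q4 1 0 0 0) (q4 0 1 0 0) (q4 0 0 α.re α.im) (q4 0 0 (-α.im) α.re) (q4 0 0 (-β.re) (-β.im))
    (q4 0 0 (-β.im) β.re)

theorem continuous_jj {X : Type} [TopologicalSpace X] {α β : X → ℂ} (hα : Continuous α)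
    (hβ : Continuous β) : Continuous fun x => jj (α x) (β x) := by
  apply continuous_mk6 continuous_const continuous_const <;> apply continuous_quat <;> fun_prop

theorem lv_jj {α β : ℂ} (h : α.re ^ 2 + α.im ^ 2 + β.re ^ 2 + β.im ^ 2 = 1) : Lv (jj α β) := by
  refine ⟨?_, ?_, ?_, ?_, ?_, ?_, ?_, ?_, ?_, ?_, ?_, ?_⟩ <;>
    simp only [Fin.sum_univ_six, jj, mk6_0, mk6_1, mk6_2, mk6_3, mk6_4, mk6_5, q4_re, q4_imI,
      q4_imJ, q4_imK] <;> linarith

theorem Phi_jj (α β : ℂ) : Phi (jj α β) =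
    (2 * α * (starRingEnd ℂ) β, α.re ^ 2 + α.im ^ 2 - (β.re ^ 2 + β.im ^ 2)) := by
  refine Prod.ext (Complex.ext ?_ ?_) ?_ <;> simp [Phi, fl_eq, jj] <;> ring

theorem Phi_sc5_jj {α β : ℂ} (h : α.re ^ 2 + α.im ^ 2 + β.re ^ 2 + β.im ^ 2 = 1) :
    Phi (sc5 (-1) (jj α β)) = (0, 1) := by
  refine Prod.ext (Complex.ext ?_ ?_) ?_ <;> simp [Phi, fl_eq, jj, sc5] <;> linarith

theorem rho_jj {w : ℂ} (hw : w.re ^ 2 + w.im ^ 2 = 1) (α β : ℂ) :
    rho (q4 w.re w.im 0 0) w (jj α β) = jj (w * α) (w * β) := by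
  apply V6_ext <;> simp only [rho_apply0, rho_apply1, rho_apply2, rho_apply3, rho_apply4,
    rho_apply5, jj, mk6_0, mk6_1, mk6_2, mk6_3, mk6_4, mk6_5] <;> ext <;> simp <;> linarith

theorem circ_sq (w : Circle) : (w : ℂ).re ^ 2 + (w : ℂ).im ^ 2 = 1 :=
  cx_sq_one_of_norm w.norm_coe

theorem circ_quat (w : Circle) : ‖q4 (w : ℂ).re (w : ℂ).im 0 0‖ = 1 :=
  norm_quat (by simpa using circ_sq w)

/-- A circle in the group. -/
def circ (w : Circle) : grp := ⟨rhoU (circ_quat w) w.norm_coe, _, _, circ_quat w, w.norm_coe, rfl⟩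

theorem continuous_circ : Continuous circ := by
  apply Continuous.subtype_mk
  rw [val_inducing.continuous_iff]
  have h : Continuous fun w : Circle => (q4 (w : ℂ).re (w : ℂ).im 0 0, (w : ℂ)) :=
    (by apply continuous_quat <;> fun_prop : Continuous fun w : Circle =>
      q4 (w : ℂ).re (w : ℂ).im 0 0).prodMk (by fun_prop)
  have h2 := continuous_rho.comp h
  exact h2

theorem circ_jj (w : Circle) (α β : ℂ) : circ w • jj α β = jj (w * α) (w * β) :=
  rho_jj (circ_sq w) α β

open Pool.Agent.Lib.MP_d476f3_gt (Δ vert coray)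

/-- The parameter on the standard one-simplex. -/
def tt (t : Δ 1) : unitInterval := ⟨t.1 1, mem_Icc_of_mem_stdSimplex t.2 1⟩

theorem continuous_tt : Continuous tt :=
  ((continuous_apply 1).comp continuous_subtype_val).subtype_mk _

theorem tt_zero : tt (vert 1 0) = 0 := by
  apply Subtype.ext
  simp [tt, vert]

theorem tt_one : tt (vert 1 1) = 1 := by
  apply Subtype.ext
  simp [tt, vert]

/-- The larger coefficient. -/
def ca (t : unitInterval) : ℝ := √((1 + t) / 2)

/-- The smaller coefficient. -/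
def cb (t : unitInterval) : ℝ := √((1 - t) / 2)

theorem ca_sq (t : unitInterval) : ca t ^ 2 = (1 + t) / 2 :=
  Real.sq_sqrt (by linarith [t.2.1])

theorem cb_sq (t : unitInterval) : cb t ^ 2 = (1 - t) / 2 :=
  Real.sq_sqrt (by linarith [t.2.2])

theorem cb_one : cb 1 = 0 := by simp [cb]

theorem cb_zero : cb 0 = ca 0 := by simp [ca, cb]

theorem ca_zero : 2 * (ca 0 : ℂ) * ca 0 = 1 := by
  have h : 2 * ca 0 * ca 0 = 1 := by
    have := ca_sq 0
    simp only [Set.Icc.coe_zero] at this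
    linarith
  exact_mod_cast h

theorem continuous_ca : Continuous ca := by
  unfold ca
  fun_prop

theorem continuous_cb : Continuous cb := by
  unfold cb
  fun_prop

theorem up_sq (w : Circle) (t : unitInterval) : (ca t : ℂ).re ^ 2 + (ca t : ℂ).im ^ 2
    + (cb t * (starRingEnd ℂ) w : ℂ).re ^ 2 + (cb t * (starRingEnd ℂ) w : ℂ).im ^ 2 = 1 := by
  simp only [Complex.ofReal_re, Complex.ofReal_im, Complex.mul_re, Complex.mul_im,
    Complex.conj_re, Complex.conj_im]
  linear_combination ca_sq t + cb_sq t + cb t ^ 2 * circ_sq w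

theorem lo_sq (w : Circle) (t : unitInterval) : (cb t * w : ℂ).re ^ 2 + (cb t * w : ℂ).im ^ 2
    + (ca t : ℂ).re ^ 2 + (ca t : ℂ).im ^ 2 = 1 := by
  simp only [Complex.ofReal_re, Complex.ofReal_im, Complex.mul_re, Complex.mul_im]
  linear_combination ca_sq t + cb_sq t + cb t ^ 2 * circ_sq w

/-- The upper disc in the level set. -/
def upD (w : Circle) (t : unitInterval) : model.zeroLevel :=
  ⟨jj (ca t) (cb t * (starRingEnd ℂ) w), mem_zeroLevel_iff.mpr (lv_jj (up_sq w t))⟩

/-- The lower disc in the level set. -/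
def loD (w : Circle) (t : unitInterval) : model.zeroLevel :=
  ⟨jj (cb t * w) (ca t), mem_zeroLevel_iff.mpr (lv_jj (lo_sq w t))⟩

theorem continuous_upD : Continuous fun p : Circle × unitInterval => upD p.1 p.2 := by
  have ha := continuous_ca
  have hb := continuous_cb
  apply Continuous.subtype_mk
  apply continuous_jj <;> fun_prop

theorem continuous_loD : Continuous fun p : Circle × unitInterval => loD p.1 p.2 := by
  have ha := continuous_ca
  have hb := continuous_cb
  apply Continuous.subtype_mk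
  apply continuous_jj <;> fun_prop

theorem circ_mul_conj (w : Circle) : (w : ℂ) * (starRingEnd ℂ) w = 1 := cx_mul_conj w.norm_coe

theorem circ_upD (w : Circle) : circ w • upD w 0 = loD w 0 := by
  apply Subtype.ext
  have h : circ w • jj (ca 0) (cb 0 * (starRingEnd ℂ) w) = jj (cb 0 * w) (ca 0) := by
    rw [circ_jj, cb_zero, mul_left_comm, circ_mul_conj, mul_one, mul_comm]
  exact h

theorem upD_one (w : Circle) : upD w 1 = upD 1 1 := by
  apply Subtype.ext
  simp only [upD, cb_one, Complex.ofReal_zero, zero_mul]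

theorem loD_one (w : Circle) : loD w 1 = loD 1 1 := by
  apply Subtype.ext
  simp only [loD, cb_one, Complex.ofReal_zero, zero_mul]

theorem Phi_upD (w : Circle) (t : unitInterval) :
    Phi (upD w t) = (2 * (ca t : ℂ) * cb t * w, (t : ℝ)) := by
  refine (Phi_jj _ _).trans (Prod.ext ?_ ?_)
  · simp [mul_assoc]
  · simp only [Complex.ofReal_re, Complex.ofReal_im, Complex.mul_re, Complex.mul_im,
      Complex.conj_re, Complex.conj_im]
    linear_combination ca_sq t - cb_sq t - cb t ^ 2 * circ_sq w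

theorem Phi_loD (w : Circle) (t : unitInterval) :
    Phi (loD w t) = (2 * (ca t : ℂ) * cb t * w, -(t : ℝ)) := by
  refine (Phi_jj _ _).trans (Prod.ext ?_ ?_)
  · simp only [Complex.conj_ofReal]
    ring
  · simp only [Complex.ofReal_re, Complex.ofReal_im, Complex.mul_re, Complex.mul_im]
    linear_combination cb_sq t - ca_sq t + cb t ^ 2 * circ_sq w

theorem mem_coray (w : Circle) (t : unitInterval) {s r : ℝ} (h : s * r = t) :
    (2 * (ca t : ℂ) * cb t * w, r) ∈ coray ℂ s := by
  rcases eq_or_lt_of_le t.2.1 with h0 | h0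
  · left
    have : t = 0 := Subtype.ext h0.symm
    rw [this, cb_zero, ca_zero, one_mul]
    exact w.coe_ne_zero
  · right
    exact h ▸ h0

end

end Pool.Agent.Lib.MP_146573_gt.C
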