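import Pool.Agent.Lib.MP_146573_gt.C.LieAlg

open scoped RealInnerProductSpace
open Quaternion

namespace Pool.Agent.Lib.MP_146573_gt.C

noncomputable section

/-- Right multiplication on all six coordinates. -/
def rmul (u : ℍ[ℝ]) : V6 →L[ℝ] V6 :=
  LinearMap.toContinuousLinearMap
    { toFun := fun x => WithLp.toLp 2 fun n => x n * u
      map_add' := fun x y => by ext1 i; simp [add_mul]
      map_smul' := fun c x => by ext1 i; simp }

@[simp] theorem rmul_apply (u : ℍ[ℝ]) (x : V6) (n : Fin 6) : rmul u x n = x n * u := rfl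

theorem rmul_mul (u v : ℍ[ℝ]) : rmul u * rmul v = rmul (v * u) := by
  ext1 x
  ext1 n
  simp [mul_assoc]

theorem rmul_neg_one : rmul (-1) = -1 := by
  ext1 x
  ext1 n
  simp

theorem op_rmul (a b g u : ℍ[ℝ]) : op a b g * rmul u = rmul u * op a b g := by
  ext1 x
  apply V6_ext <;> simp only [mul_apply_eq_comp, op_apply0, op_apply1, op_apply2,
    op_apply3, op_apply4, op_apply5, rmul_apply] <;> noncomm_ring

theorem inner_V6 (x y : V6) : ⟪x, y⟫ = ⟪x 0, y 0⟫ + ⟪x 1, y 1⟫ + ⟪x 2, y 2⟫ + ⟪x 3, y 3⟫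
    + ⟪x 4, y 4⟫ + ⟪x 5, y 5⟫ := by
  rw [PiLp.inner_apply, Fin.sum_univ_six]

theorem inner_rmul {u : ℍ[ℝ]} (hu : ‖u‖ = 1) (x y : V6) : ⟪rmul u x, rmul u y⟫ = ⟪x, y⟫ := by
  simp only [inner_V6, rmul_apply, inner_mul_right_unit hu]

theorem rho_apply0 (g : ℍ[ℝ]) (z : ℂ) (x : V6) :
    rho g z x 0 = g * (z.re • x 0 - z.im • x 1) := by
  simp [rho, mul_sub]

theorem rho_apply1 (g : ℍ[ℝ]) (z : ℂ) (x : V6) :
    rho g z x 1 = g * (z.im • x 0 + z.re • x 1) := by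
  simp [rho, mul_add]

theorem rho_apply2 (g : ℍ[ℝ]) (z : ℂ) (x : V6) : rho g z x 2 = g * x 2 := rfl

theorem rho_apply3 (g : ℍ[ℝ]) (z : ℂ) (x : V6) : rho g z x 3 = g * x 3 := rfl

theorem rho_apply4 (g : ℍ[ℝ]) (z : ℂ) (x : V6) : rho g z x 4 = g * x 4 := rfl

theorem rho_apply5 (g : ℍ[ℝ]) (z : ℂ) (x : V6) : rho g z x 5 = g * x 5 := rfl

theorem inner_rho {g : ℍ[ℝ]} {z : ℂ} (hg : ‖g‖ = 1) (hz : ‖z‖ = 1) (x y : V6) :
    ⟪rho g z x, rho g z y⟫ = ⟪x, y⟫ := by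
  have h := cx_sq_one_of_norm hz
  simp only [inner_V6, rho_apply0, rho_apply1, rho_apply2, rho_apply3, rho_apply4, rho_apply5,
    inner_mul_left_unit hg,
    inner_sub_left, inner_sub_right, inner_add_left, inner_add_right, real_inner_smul_left,
    real_inner_smul_right]
  linear_combination (⟪x 0, y 0⟫ + ⟪x 1, y 1⟫) * h

theorem rho_eq_mul (g : ℍ[ℝ]) (z : ℂ) : rho g z = lHom g * rHom (z, 1) := (lHom_mul_rHom g z).symm

theorem rho_phi_conj {g : ℍ[ℝ]} {z : ℂ} (hg : ‖g‖ = 1) (p : ℍ[ℝ]) :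
    phi (g * p * star g) * rho g z = rho g z * phi p := by
  have h1 : (g * p * star g).re = p.re := re_conj_unit hg p
  have h2 : (g * p * star g).im * g = g * p.im := by
    have e1 : (g * p * star g).im = g * p * star g - (p.re : ℍ[ℝ]) := by
      rw [← h1, Quaternion.sub_re_self]
    have e2 : p.im = p - (p.re : ℍ[ℝ]) := by rw [Quaternion.sub_re_self]
    rw [e1, e2, sub_mul, mul_sub, mul_assoc, quat_star_mul hg, mul_one,
      Quaternion.coe_commutes]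
  rw [phi_apply, phi_apply, rho, op_mul, op_mul, h1]
  congr 1
  · simp only [mul_smul_comm, smul_mul_assoc, h2, Quaternion.coe_commutes]
  · simp only [mul_smul_comm, smul_mul_assoc, h2, Quaternion.coe_commutes]
    abel

theorem phi_conj {g : ℍ[ℝ]} {z : ℂ} (hg : ‖g‖ = 1) (hz : ‖z‖ = 1) (p : ℍ[ℝ]) :
    phi (g * p * star g) = rho g z * phi p * rho (star g) ((starRingEnd ℂ) z) := by
  rw [← rho_phi_conj hg, mul_assoc (phi _), rho_mul_inv hg hz, mul_one]

/-- The moment map for the complex structure given by `u`, at central level `c`. -/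
def mom (u : ℍ[ℝ]) (c : ℝ) (x : V6) : ℍ[ℝ] :=
  (((x 0 * u * star (x 1)).re - c : ℝ) : ℍ[ℝ]) - (1 / 2 : ℝ) •
    (x 0 * u * star (x 0) + x 1 * u * star (x 1) + x 2 * u * star (x 2) + x 3 * u * star (x 3)
      + x 4 * u * star (x 4) + x 5 * u * star (x 5))

theorem phi_apply0 (p : ℍ[ℝ]) (x : V6) : phi p x 0 = p.im * x 0 - p.re • x 1 := by
  simp [phi_apply, Quaternion.coe_mul_eq_smul]

theorem phi_apply1 (p : ℍ[ℝ]) (x : V6) : phi p x 1 = p.re • x 0 + p.im * x 1 := by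
  simp [phi_apply, Quaternion.coe_mul_eq_smul]

theorem phi_apply2 (p : ℍ[ℝ]) (x : V6) : phi p x 2 = p.im * x 2 := rfl

theorem phi_apply3 (p : ℍ[ℝ]) (x : V6) : phi p x 3 = p.im * x 3 := rfl

theorem phi_apply4 (p : ℍ[ℝ]) (x : V6) : phi p x 4 = p.im * x 4 := rfl

theorem phi_apply5 (p : ℍ[ℝ]) (x : V6) : phi p x 5 = p.im * x 5 := rfl

theorem inner_rmul_phi (u p : ℍ[ℝ]) (x y : V6) :
    ⟪rmul u (phi p x), y⟫ = ⟪p.im * x 0 * u, y 0⟫ + ⟪p.im * x 1 * u, y 1⟫ + ⟪p.im * x 2 * u, y 2⟫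
      + ⟪p.im * x 3 * u, y 3⟫ + ⟪p.im * x 4 * u, y 4⟫ + ⟪p.im * x 5 * u, y 5⟫
      + p.re * (⟪x 0 * u, y 1⟫ - ⟪x 1 * u, y 0⟫) := by
  simp only [inner_V6, rmul_apply, phi_apply0, phi_apply1, phi_apply2, phi_apply3, phi_apply4,
    phi_apply5, sub_mul, add_mul,
    smul_mul_assoc, inner_sub_left, inner_add_left, real_inner_smul_left]
  ring

theorem inner_rmul_phi_symm {u : ℍ[ℝ]} (hu : u.re = 0) (p : ℍ[ℝ]) (x y : V6) :
    ⟪rmul u (phi p x), y⟫ = ⟪rmul u (phi p y), x⟫ := by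
  rw [inner_rmul_phi, inner_rmul_phi, inner_im_symm hu (x 0), inner_im_symm hu (x 1),
    inner_im_symm hu (x 2), inner_im_symm hu (x 3), inner_im_symm hu (x 4),
    inner_im_symm hu (x 5), inner_mul_antisymm hu (x 0) (y 1),
    inner_mul_antisymm hu (x 1) (y 0)]
  ring

theorem inner_mom {u : ℍ[ℝ]} (hu : u.re = 0) (c : ℝ) (p : ℍ[ℝ]) (x : V6) :
    ⟪mom u c x, p⟫ = (1 / 2 : ℝ) * ⟪rmul u (phi p x), x⟫ - c * p.re := by
  rw [inner_rmul_phi, mom, inner_sub_left, real_inner_smul_left, inner_add_left, inner_add_left,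
    inner_add_left, inner_add_left, inner_add_left, inner_coe_left, inner_conj_im hu,
    inner_conj_im hu, inner_conj_im hu, inner_conj_im hu, inner_conj_im hu,
    inner_conj_im hu, inner_mul_antisymm hu (x 1) (x 0), ← Quaternion.inner_def]
  ring

theorem hasFDerivAt_mom {u : ℍ[ℝ]} (hu : u.re = 0) (c : ℝ) (p : ℍ[ℝ]) (x : V6) :
    HasFDerivAt (fun y => ⟪mom u c y, p⟫) (innerSL ℝ (rmul u (phi p x))) x := by
  have h := hasFDerivAt_half_inner (rmul u * phi p) (inner_rmul_phi_symm hu p) (c * p.re) x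
  have e : (fun y => ⟪mom u c y, p⟫) = fun y => (1 / 2 : ℝ) * ⟪(rmul u * phi p) y, y⟫ - c * p.re :=
    funext fun y => inner_mom hu c p y
  rw [e]
  exact h

theorem mom_rho {u : ℍ[ℝ]} (hu : u.re = 0) (c : ℝ) {g : ℍ[ℝ]} {z : ℂ} (hg : ‖g‖ = 1)
    (hz : ‖z‖ = 1) (x : V6) : mom u c (rho g z x) = g * mom u c x * star g := by
  apply ext_inner_right ℝ
  intro q
  obtain ⟨p, rfl⟩ : ∃ p, q = g * p * star g := by
    refine ⟨star g * q * g, ?_⟩
    rw [mul_assoc, mul_assoc, mul_assoc, quat_mul_star hg, mul_one, ← mul_assoc, quat_mul_star hg,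
      one_mul]
  rw [inner_conj_unit hg, inner_mom hu, inner_mom hu, re_conj_unit hg]
  have h1 : phi (g * p * star g) (rho g z x) = rho g z (phi p x) :=
    congrArg (fun T : V6 →L[ℝ] V6 => T x) (rho_phi_conj (z := z) hg p)
  have h2 : rmul u (rho g z (phi p x)) = rho g z (rmul u (phi p x)) :=
    (congrArg (fun T : V6 →L[ℝ] V6 => T (phi p x)) (op_rmul _ _ _ u)).symm
  rw [h1, h2, inner_rho hg hz]

theorem differentiable_mom (u : ℍ[ℝ]) (c : ℝ) : Differentiable ℝ (mom u c) := by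
  have hc : ∀ n, Differentiable ℝ fun x : V6 => x n := fun n => (evc n).differentiable
  have hs : ∀ n, Differentiable ℝ fun x : V6 => star (x n) := fun n =>
    starL4.differentiable.comp (hc n)
  have hp : ∀ n m, Differentiable ℝ fun x : V6 => x n * u * star (x m) := fun n m =>
    ((hc n).mul_const u).mul (hs m)
  have h1 : Differentiable ℝ fun x : V6 => (x 0 * u * star (x 1)).re - c :=
    (reL.differentiable.comp (hp 0 1)).sub_const c
  have h2 : Differentiable ℝ fun x : V6 => (((x 0 * u * star (x 1)).re - c : ℝ) : ℍ[ℝ]) := by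
    have := h1.smul_const (1 : ℍ[ℝ])
    simpa only [smul_one_quat] using this
  exact h2.sub (((((((hp 0 0).add (hp 1 1)).add (hp 2 2)).add (hp 3 3)).add (hp 4 4)).add
    (hp 5 5)).const_smul (1 / 2 : ℝ))

end

end Pool.Agent.Lib.MP_146573_gt.C
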