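import Pool.Agent.Lib.MP_146573_gt.Model

open scoped RealInnerProductSpace

namespace Pool.Agent.Lib.MP_146573_gt.C

noncomputable section

/-- The space of six quaternions with its Euclidean metric. -/
abbrev V6 : Type := PiLp 2 (fun _ : Fin 6 => Quaternion ℝ)

/-- The basic operators on `V6`, as linear maps. -/
def opL (a b g : Quaternion ℝ) : V6 →ₗ[ℝ] V6 where
  toFun x := WithLp.toLp 2 ![a * x 0 - b * x 1, b * x 0 + a * x 1, g * x 2, g * x 3, g * x 4, g * x 5]
  map_add' x y := by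
    ext1 i
    fin_cases i <;> simp [mul_add] <;> abel
  map_smul' c x := by
    ext1 i
    fin_cases i <;> simp [smul_sub, smul_add]

/-- The basic operators on `V6`. -/
def op (a b g : Quaternion ℝ) : V6 →L[ℝ] V6 := LinearMap.toContinuousLinearMap (opL a b g)

@[simp] theorem op_apply0 (a b g : Quaternion ℝ) (x : V6) : op a b g x 0 = a * x 0 - b * x 1 := rfl
@[simp] theorem op_apply1 (a b g : Quaternion ℝ) (x : V6) : op a b g x 1 = b * x 0 + a * x 1 := rfl
@[simp] theorem op_apply2 (a b g : Quaternion ℝ) (x : V6) : op a b g x 2 = g * x 2 := rfl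
@[simp] theorem op_apply3 (a b g : Quaternion ℝ) (x : V6) : op a b g x 3 = g * x 3 := rfl
@[simp] theorem op_apply4 (a b g : Quaternion ℝ) (x : V6) : op a b g x 4 = g * x 4 := rfl
@[simp] theorem op_apply5 (a b g : Quaternion ℝ) (x : V6) : op a b g x 5 = g * x 5 := rfl

theorem V6_ext {x y : V6} (h0 : x 0 = y 0) (h1 : x 1 = y 1) (h2 : x 2 = y 2) (h3 : x 3 = y 3)
    (h4 : x 4 = y 4) (h5 : x 5 = y 5) : x = y := by
  ext1 i
  fin_cases i
  · exact h0
  · exact h1
  · exact h2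
  · exact h3
  · exact h4
  · exact h5

theorem op_mul (a b g a' b' g' : Quaternion ℝ) :
    op a b g * op a' b' g' = op (a * a' - b * b') (a * b' + b * a') (g * g') := by
  ext1 x
  apply V6_ext <;> simp only [mul_apply_eq_comp, op_apply0, op_apply1, op_apply2,
    op_apply3, op_apply4, op_apply5] <;> noncomm_ring

theorem op_add (a b g a' b' g' : Quaternion ℝ) :
    op a b g + op a' b' g' = op (a + a') (b + b') (g + g') := by
  ext1 x
  apply V6_ext <;> simp only [add_apply, PiLp.add_apply, op_apply0, op_apply1,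
    op_apply2, op_apply3, op_apply4, op_apply5] <;> noncomm_ring

theorem op_smul (c : ℝ) (a b g : Quaternion ℝ) :
    c • op a b g = op (c • a) (c • b) (c • g) := by
  ext1 x
  apply V6_ext <;> simp [smul_sub, smul_add]

theorem op_one : op 1 0 1 = 1 := by
  ext1 x
  apply V6_ext <;> simp

theorem op_zero : op 0 0 0 = 0 := by
  ext1 x
  apply V6_ext <;> simp

/-- `op` as a linear map of its three parameters. -/
def opLin : (Quaternion ℝ × Quaternion ℝ × Quaternion ℝ) →ₗ[ℝ] (V6 →L[ℝ] V6) where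
  toFun p := op p.1 p.2.1 p.2.2
  map_add' _ _ := (op_add _ _ _ _ _ _).symm
  map_smul' _ _ := (op_smul _ _ _ _).symm

theorem continuous_op {X : Type} [TopologicalSpace X] {a b g : X → Quaternion ℝ}
    (ha : Continuous a) (hb : Continuous b) (hg : Continuous g) :
    Continuous fun t => op (a t) (b t) (g t) :=
  opLin.continuous_of_finiteDimensional.comp (ha.prodMk (hb.prodMk hg))

/-- The representation of `Sp(1) × U(1)`. -/
def rho (g : Quaternion ℝ) (z : ℂ) : V6 →L[ℝ] V6 := op (z.re • g) (z.im • g) g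

theorem rho_mul (g g' : Quaternion ℝ) (z z' : ℂ) : rho g z * rho g' z' = rho (g * g') (z * z') := by
  unfold rho
  rw [op_mul]
  congr 1
  · simp [sub_smul, smul_smul, mul_comm]
  · simp [add_smul, smul_smul, mul_comm]

theorem rho_one : rho 1 1 = 1 := by
  unfold rho
  simp [op_one]

theorem rho_mul_inv {g : Quaternion ℝ} {z : ℂ} (hg : ‖g‖ = 1) (hz : ‖z‖ = 1) :
    rho g z * rho (star g) ((starRingEnd ℂ) z) = 1 := by
  rw [rho_mul, quat_mul_star hg, cx_mul_conj hz, rho_one]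

theorem rho_inv_mul {g : Quaternion ℝ} {z : ℂ} (hg : ‖g‖ = 1) (hz : ‖z‖ = 1) :
    rho (star g) ((starRingEnd ℂ) z) * rho g z = 1 := by
  rw [rho_mul, quat_star_mul hg, mul_comm, cx_mul_conj hz, rho_one]

/-- The unit attached to a pair of unit parameters. -/
def rhoU {g : Quaternion ℝ} {z : ℂ} (hg : ‖g‖ = 1) (hz : ‖z‖ = 1) : (V6 →L[ℝ] V6)ˣ :=
  ⟨rho g z, rho (star g) ((starRingEnd ℂ) z), rho_mul_inv hg hz, rho_inv_mul hg hz⟩

theorem inv_eq_rho {u : (V6 →L[ℝ] V6)ˣ} {g : Quaternion ℝ} {z : ℂ} (hg : ‖g‖ = 1) (hz : ‖z‖ = 1)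
    (h : (u : V6 →L[ℝ] V6) = rho g z) :
    ((u⁻¹ : (V6 →L[ℝ] V6)ˣ) : V6 →L[ℝ] V6) = rho (star g) ((starRingEnd ℂ) z) := by
  apply Units.inv_eq_of_mul_eq_one_right
  rw [h, rho_mul_inv hg hz]

/-- The group `Sp(1) × U(1)` as a subgroup of `GL(V6)`. -/
def grp : Subgroup (V6 →L[ℝ] V6)ˣ where
  carrier := {u | ∃ (g : Quaternion ℝ) (z : ℂ), ‖g‖ = 1 ∧ ‖z‖ = 1 ∧ (u : V6 →L[ℝ] V6) = rho g z}
  one_mem' := ⟨1, 1, by simp, by simp, rho_one.symm⟩
  mul_mem' := by
    rintro u v ⟨g, z, hg, hz, h⟩ ⟨g', z', hg', hz', h'⟩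
    refine ⟨g * g', z * z', by simp [hg, hg'], by simp [hz, hz'], ?_⟩
    rw [Units.val_mul, h, h', rho_mul]
  inv_mem' := by
    rintro u ⟨g, z, hg, hz, h⟩
    exact ⟨star g, (starRingEnd ℂ) z, by simp [hg], by simp [hz], inv_eq_rho hg hz h⟩

theorem mem_grp {u : (V6 →L[ℝ] V6)ˣ} : u ∈ grp ↔
    ∃ (g : Quaternion ℝ) (z : ℂ), ‖g‖ = 1 ∧ ‖z‖ = 1 ∧ (u : V6 →L[ℝ] V6) = rho g z := Iff.rfl

theorem continuous_rho : Continuous fun p : Quaternion ℝ × ℂ => rho p.1 p.2 := by
  unfold rho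
  apply continuous_op <;> fun_prop

theorem val_image_grp : Units.val '' (grp : Set (V6 →L[ℝ] V6)ˣ) =
    (fun p : Quaternion ℝ × ℂ => rho p.1 p.2) ''
      (Metric.sphere (0 : Quaternion ℝ) 1 ×ˢ Metric.sphere (0 : ℂ) 1) := by
  ext A
  constructor
  · rintro ⟨u, ⟨g, z, hg, hz, h⟩, rfl⟩
    exact ⟨(g, z), ⟨by simpa using hg, by simpa using hz⟩, h.symm⟩
  · rintro ⟨⟨g, z⟩, ⟨hg, hz⟩, rfl⟩
    have hg' : ‖g‖ = 1 := by simpa using hg
    have hz' : ‖z‖ = 1 := by simpa using hz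
    exact ⟨rhoU hg' hz', ⟨g, z, hg', hz', rfl⟩, rfl⟩

theorem val_inducing : Topology.IsInducing (Units.val : (V6 →L[ℝ] V6)ˣ → (V6 →L[ℝ] V6)) :=
  (Units.isOpenEmbedding_val (R := V6 →L[ℝ] V6)).isEmbedding.isInducing

theorem grp_compact : IsCompact (grp : Set (V6 →L[ℝ] V6)ˣ) := by
  rw [val_inducing.isCompact_iff, val_image_grp]
  exact ((isCompact_sphere _ _).prod (isCompact_sphere _ _)).image continuous_rho

theorem grp_connected : IsConnected (grp : Set (V6 →L[ℝ] V6)ˣ) := by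
  refine ⟨⟨1, grp.one_mem⟩, ?_⟩
  rw [← val_inducing.isPreconnected_image, val_image_grp]
  apply IsPreconnected.image _ _ continuous_rho.continuousOn
  apply IsPreconnected.prod
  · apply isPreconnected_sphere
    rw [Quaternion.rank_eq_four]
    norm_num
  · apply isPreconnected_sphere
    rw [Complex.rank_real_complex]
    norm_num

end

end Pool.Agent.Lib.MP_146573_gt.C
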